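import Pool.Agent.Y589.Clos

/-!
# Adding many subsets of a regular uncountable cardinal
-/

namespace Pool.Agent.Y589.Boards

open Cardinal Pool.Agent.Helper669.Forcing Pool.Agent.H995R3.Boards
  Pool.Agent.Helper669.Forcing2

universe u v w

theorem good_small {X : Type u} {κ : Cardinal.{u}} (hκ : κ.IsRegular) (h0 : ℵ₀ < κ) :
    Good {s : Set X | #s < κ} where
  sub s hs t ht := (mk_le_mk_of_subset ht).trans_lt hs
  sing x := by
    show #({x} : Set X) < κ
    rw [mk_singleton]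
    exact one_lt_aleph0.trans h0
  iUnion s hs := by
    show #(⋃ n, s n : Set X) < κ
    have h1 : #(⋃ n : ULift.{u} ℕ, s n.down) < κ := by
      rw [card_iUnion_lt_iff_forall_of_isRegular hκ (by simpa using h0)]
      exact fun n => hs n.down
    refine (mk_le_mk_of_subset ?_).trans_lt h1
    intro x hx
    obtain ⟨n, hn⟩ := Set.mem_iUnion.1 hx
    exact Set.mem_iUnion.2 ⟨⟨n⟩, hn⟩

/-- few small sets -/
theorem mk_small_sets {Z : Type u} {κ μ : Cardinal.{u}} (h0 : ℵ₀ ≤ κ) (hκμ : κ ≤ μ)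
    (hμ : ∀ ν < κ, μ ^ ν ≤ μ) (hZ : #Z ≤ μ) : #{t : Set Z // #t < κ} ≤ μ := by
  classical
  let I : Type u := κ.ord.ToType
  let Φ : (Σ i : I, (Set.Iio i → Option Z)) → Set Z := fun s => {z | ∃ j, s.2 j = some z}
  have h1 : ∀ t : Set Z, #t < κ → t ∈ Set.range Φ := by
    intro t ht
    obtain ⟨i, hi⟩ : (#t).ord ∈ Set.range (Ordinal.typein (α := I) (· < ·)) := by
      refine Ordinal.typein_surj _ ?_
      rw [Ordinal.type_toType]
      exact ord_lt_ord.2 ht
    have h2 : #t = #(Set.Iio i) := by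
      have h3 := congrArg Ordinal.card (Ordinal.type_Iio_lt i)
      rw [Ordinal.card_type, hi, card_ord] at h3
      exact h3.symm
    obtain ⟨e⟩ := Cardinal.eq.1 h2
    refine ⟨⟨i, fun j => some (e.symm j).1⟩, ?_⟩
    ext z
    constructor
    · rintro ⟨j, hj⟩
      simp only [Option.some.injEq] at hj
      rw [← hj]
      exact (e.symm j).2
    · intro hz
      exact ⟨e ⟨z, hz⟩, by simp⟩
  have h2 : #{t : Set Z // #t < κ} ≤ #(Set.range Φ) :=
    mk_le_mk_of_subset (s := {t : Set Z | #t < κ}) h1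
  refine h2.trans (mk_range_le.trans ?_)
  rw [mk_sigma]
  have hμ0 : ℵ₀ ≤ μ := h0.trans hκμ
  refine (sum_le_sum _ (fun _ => μ) fun i => ?_).trans ?_
  · rw [mk_arrow, lift_id, lift_id]
    have h3 := mk_Iio_lt i (by simp [I])
    refine (power_le_power_right ?_).trans (hμ _ (by simpa [I] using h3))
    rw [mk_option]
    exact (add_le_add hZ (one_le_aleph0.trans hμ0)).trans (add_eq_self hμ0).le
  · rw [sum_const', mk_ord_toType]
    exact (mul_le_mul' hκμ le_rfl).trans (mul_eq_self hμ0).le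

/-- few partial functions -/
theorem mk_cond_le {D : Type u} {Y : Type u} {κ μ : Cardinal.{u}} (h0 : ℵ₀ ≤ κ) (hκμ : κ ≤ μ)
    (hμ : ∀ ν < κ, μ ^ ν ≤ μ) (A : Set D) (hA : #A ≤ μ) (hY : #Y ≤ μ) {𝒮 : Set (Set D)}
    (h𝒮 : ∀ s ∈ 𝒮, #s < κ) :
    #{u : Cond (fun _ : D => Y) 𝒮 // dom u ⊆ A} ≤ μ := by
  let gr : {u : Cond (fun _ : D => Y) 𝒮 // dom u ⊆ A} → {t : Set (A × Y) // #t < κ} := fun u =>
    ⟨{z | u.1.f z.1.1 = some z.2}, by
      refine lt_of_le_of_lt ?_ (h𝒮 _ u.1.supp)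
      refine mk_le_of_injective (f := fun z : {z : A × Y | u.1.f z.1.1 = some z.2} =>
        (⟨z.1.1.1, by
          have := z.2
          simp only [Set.mem_ofPred_eq] at this
          simp [this]⟩ : {x | u.1.f x ≠ none})) ?_
      rintro ⟨⟨x, v⟩, h⟩ ⟨⟨x', v'⟩, h'⟩ he
      simp only [Subtype.mk.injEq] at he
      have hx : x = x' := Subtype.ext he
      subst hx
      simp only [Set.mem_ofPred_eq] at h h'
      rw [h] at h'
      have hv : v = v' := Option.some.inj h'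
      subst hv
      rfl⟩
  have hgr : Function.Injective gr := by
    intro u u' h
    have h1 : ∀ z : A × Y, u.1.f z.1.1 = some z.2 ↔ u'.1.f z.1.1 = some z.2 := by
      intro z
      have h2 := congrArg Subtype.val h
      have h3 : z ∈ {z : A × Y | u.1.f z.1.1 = some z.2} ↔
          z ∈ {z : A × Y | u'.1.f z.1.1 = some z.2} := by
        have h4 : {z : A × Y | u.1.f z.1.1 = some z.2} = {z : A × Y | u'.1.f z.1.1 = some z.2} :=
          h2
        rw [h4]
      exact h3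
    have h5 : u.1.f = u'.1.f := by
      funext x
      rcases hx : u.1.f x with _ | v
      · rcases hx' : u'.1.f x with _ | v'
        · rfl
        · have hA' : x ∈ A := u'.2 (mem_dom hx')
          have := (h1 (⟨x, hA'⟩, v')).2 hx'
          simp only at this
          rw [hx] at this
          exact absurd this (by simp)
      · have hA' : x ∈ A := u.2 (mem_dom hx)
        exact ((h1 (⟨x, hA'⟩, v)).1 hx).symm
    rcases u with ⟨⟨f, hf⟩, hu⟩
    rcases u' with ⟨⟨f', hf'⟩, hu'⟩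
    simp only at h5
    subst h5
    rfl
  refine (mk_le_of_injective hgr).trans (mk_small_sets h0 hκμ hμ ?_)
  rw [mk_prod, lift_id, lift_id]
  exact (mul_le_mul' hA hY).trans (mul_eq_self (h0.trans hκμ)).le

/-- names for functions on sets which are not too large have supports -/
theorem exists_supp_level {D : Type u} {M : D → Type v} {𝒮 : Set (Set D)} {Θ : Type u}
    [LinearOrder Θ] {K : Type*} {L : Type*} (Fr : Frame M 𝒮 Θ K L) {μ : Cardinal.{u}}
    (hΘ : μ < Order.cof Θ) (hμ : ℵ₀ ≤ μ) {X : Type*} {Y : Type*}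
    {x : X → Y → Set (Cond M 𝒮)} {p : Cond M 𝒮} {S : Set D} (hS : #S ≤ μ) (hp : p ∈ Supp S x)
    (ζ₁ : Θ) : ∃ ζ ≥ ζ₁, p ∈ Supp (Fr.A ζ) x := by
  classical
  have h1 : #{ξ : Θ | ξ = ζ₁ ∨ ∃ m α, Fr.ι ξ m α ∈ S} < Order.cof Θ := by
    refine lt_of_le_of_lt ?_ hΘ
    have h2 : #{ξ : Θ | ∃ m α, Fr.ι ξ m α ∈ S} ≤ #S := by
      have h3 : ∀ ξ : {ξ : Θ | ∃ m α, Fr.ι ξ m α ∈ S}, ∃ z : S, ∃ m α, Fr.ι ξ.1 m α = z.1 := by
        rintro ⟨ξ, m, α, h⟩
        exact ⟨⟨_, h⟩, m, α, rfl⟩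
      choose e he using h3
      refine mk_le_of_injective (f := e) fun ξ ξ' h => ?_
      obtain ⟨m, α, h4⟩ := he ξ
      obtain ⟨m', α', h5⟩ := he ξ'
      rw [h, ← h5] at h4
      exact Subtype.ext (Fr.inj _ _ _ _ _ _ h4).1
    have h4 : {ξ : Θ | ξ = ζ₁ ∨ ∃ m α, Fr.ι ξ m α ∈ S} =
        insert ζ₁ {ξ : Θ | ∃ m α, Fr.ι ξ m α ∈ S} := rfl
    rw [h4]
    refine (mk_insert_le).trans ?_
    exact (add_le_add (h2.trans hS) (one_le_aleph0.trans hμ)).trans (add_eq_self hμ).le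
  obtain ⟨ζ, hζ⟩ := exists_bound _ h1
  refine ⟨ζ, (hζ ζ₁ (Or.inl rfl)).le, supp_mono (fun z hz ξ m α he => ?_) x hp⟩
  subst he
  exact hζ ξ (Or.inr ⟨m, α, hz⟩)

section

variable {I K : Type u} {μ : Cardinal.{u}}

/-- the frame -/
noncomputable def fr (hreg : (#K).IsRegular) (hunc : ℵ₀ < #K) {Θ : Type u} [LinearOrder Θ]
    (e : Θ × ℕ × K ↪ I) {L : Type u} (g : K → L) (hg : Function.Surjective g) :
    Frame (fun _ : I => K) {s : Set I | #s < #K} Θ K L where
  good := good_small hreg hunc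
  ι ξ m α := e (ξ, m, α)
  inj ξ m α ξ' m' α' h := by simpa using e.injective h
  dec _ _ _ := g
  surj _ _ _ := hg
  fresh s hs := by
    have hs' : #s < #K := hs
    by_contra hcon
    push Not at hcon
    choose ξ m h using hcon
    refine absurd hs' (not_lt.2 ?_)
    refine mk_le_of_injective (f := fun α => (⟨_, h α⟩ : s)) fun α β hαβ => ?_
    have h1 := e.injective (congrArg Subtype.val hαβ)
    simp only [Prod.mk.injEq] at h1
    exact h1.2.2

theorem supp_add (hreg : (#K).IsRegular) (hunc : ℵ₀ < #K) (hKμ : #K ≤ μ)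
    (hμ : ∀ ν < #K, μ ^ ν ≤ μ) {X Y : Type u} (hX : #X ≤ μ)
    (x : X → Y → Set (SmallFn I K)) (p : SmallFn I K) (hp : p ∈ IsFun x) :
    ∃ S : Set I, #S ≤ μ ∧ p ∈ Supp S x := by
  obtain ⟨S, _, h1, h2⟩ := exists_set (good_small hreg hunc) hreg hKμ Set.univ hX x p
    (fun u _ hu a => by
      obtain ⟨w, hw, b, hb⟩ := ((isFun_iff.1 hp) a).1 u fun z v hv => hu z (Set.mem_univ _) v hv
      refine ⟨w, hw, Set.subset_univ _, b, down_meets _ _ hb _ fun z v hv => ?_⟩
      rw [mix_mem _ (Set.mem_univ _)]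
      exact hv)
    (fun r => (mk_le_mk_of_subset Set.inter_subset_left).trans_lt r.supp)
    (fun T _ hT => by
      rw [Cardinal.lift_le]
      exact mk_cond_le hreg.aleph0_le hKμ hμ T hT hKμ fun s hs => hs)
  exact ⟨S, h1, h2⟩

theorem determined_add (hreg : (#K).IsRegular) (hunc : ℵ₀ < #K) (hKμ : #K ≤ μ)
    (hμ : ∀ ν < #K, μ ^ ν ≤ μ) (hI : μ < #I) {L : Type u} (hL : Nonempty L)
    (hLK : #L ≤ #K) (p : SmallFn I K) : p ∈ AllDetermined (SmallFn I K) K L := by
  intro S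
  obtain ⟨e⟩ : Nonempty (L ↪ K) := Cardinal.le_def _ _ |>.1 hLK
  have hg : Function.Surjective (Function.invFun e) := Function.invFun_surjective e.injective
  have h2 : ℵ₀ ≤ μ := hreg.aleph0_le.trans hKμ
  let Θ : Type u := (Order.succ μ).ord.ToType
  have hcof : Order.cof Θ = Order.succ μ := by
    rw [Ordinal.cof_toType, (isRegular_succ h2).cof_ord]
  have hΘ : μ < Order.cof Θ := by
    rw [hcof]
    exact Order.lt_succ _
  have hne : Nonempty Θ := by
    rw [← Order.cof_ne_zero_iff, hcof]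
    exact (Order.bot_lt_succ _).ne'
  obtain ⟨e'⟩ : Nonempty (Θ × ℕ × K ↪ I) := by
    rw [← Cardinal.le_def]
    refine le_trans ?_ (Order.succ_le_of_lt hI)
    have h3 : ℵ₀ ≤ Order.succ μ := h2.trans (Order.le_succ _)
    simp only [mk_prod, lift_id, mk_nat, lift_aleph0, lift_uzero, Θ, mk_ord_toType]
    refine (mul_le_mul' le_rfl (mul_le_mul' h3 (hKμ.trans (Order.le_succ _)))).trans ?_
    rw [mul_eq_self h3, mul_eq_self h3]
  refine determined (fr hreg hunc e' _ hg) (fun ζ₀ n f p hp => ?_) (fun x p hp => ?_) S p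
  · have hX : #(ULift.{u} (Fin n) × K) ≤ μ := by
      rw [mk_prod, lift_id, lift_id]
      refine (mul_le_mul' ?_ hKμ).trans (mul_eq_self h2).le
      exact (lt_aleph0_of_finite _).le.trans h2
    obtain ⟨S, hS, hS'⟩ := supp_add hreg hunc hKμ hμ hX
      (fun a : ULift.{u} (Fin n) × K => f (a.1.down, a.2)) p (by
        rw [isFun_iff] at hp ⊢
        exact fun a => hp (a.1.down, a.2))
    obtain ⟨ζ, hζ, h⟩ := exists_supp_level (fr hreg hunc e' _ hg) hΘ h2 hS hS' ζ₀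
    exact ⟨p, le_rfl, ζ, hζ, fun r hr a => h r hr (⟨a.1⟩, a.2)⟩
  · have hX : #(ℕ → L) ≤ μ := by
      rw [mk_arrow, lift_uzero, mk_nat, lift_aleph0]
      exact (power_le_power_right (hLK.trans hKμ)).trans (hμ _ hunc)
    obtain ⟨S, hS, hS'⟩ := supp_add hreg hunc hKμ hμ hX
      (fun a (b : ULift.{u} Bool) => x a b.down) p (by
        rw [isFun_iff] at hp ⊢
        intro a
        refine ⟨fun q hq => ?_, fun q hq b b' h h' => ?_⟩
        · obtain ⟨r, hr, b, hb⟩ := (hp a).1 q hq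
          exact ⟨r, hr, ⟨b⟩, hb⟩
        · exact ULift.ext _ _ ((hp a).2 q hq _ _ h h'))
    obtain ⟨ζ, _, h⟩ := exists_supp_level (fr hreg hunc e' _ hg) hΘ h2 hS hS'
      (Classical.arbitrary _)
    refine ⟨p, le_rfl, ζ, fun r hr a => ?_⟩
    obtain ⟨r', h1, h2, b, hb⟩ := h r hr a
    exact ⟨r', h1, h2, b.down, hb⟩

end

end Pool.Agent.Y589.Boards
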