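import Pool.Agent.H995R3.Boards.Defs

/-!
# Forcing with partial functions, and determinacy of all multiboard games
-/

namespace Pool.Agent.Y589.Boards

open Cardinal Pool.Agent.Helper669.Forcing Pool.Agent.H995R3.Boards

universe u v w

/-- Partial functions on `D`, with values in `M x` at `x`, whose domains belong to `𝒮`. -/
structure Cond {D : Type u} (M : D → Type v) (𝒮 : Set (Set D)) where
  /-- the partial function -/
  f : ∀ x, Option (M x)
  /-- its domain belongs to `𝒮` -/
  supp : {x | f x ≠ none} ∈ 𝒮

/-- `q ≤ p` iff `q` extends `p`. -/
instance {D : Type u} {M : D → Type v} {𝒮 : Set (Set D)} : Preorder (Cond M 𝒮) where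
  le q p := ∀ x v, p.f x = some v → q.f x = some v
  le_refl _ _ _ h := h
  le_trans _ _ _ hab hbc x v h := hab x v (hbc x v h)

/-- All partial functions from `I` to `K` with fewer than `|K|` elements. -/
abbrev SmallFn (I K : Type u) : Type u := Cond (fun _ : I => K) {s : Set I | #s < #K}

/-- In the extension `D(|L|, |K|)` holds: for every set `S` of sequences of elements of `L`, the
game `GS_L(S, K)` is not undetermined. -/
def AllDetermined (P : Type u) [Preorder P] (K : Type v) (L : Type w) : Set P :=
  fall fun S : SetName P ℕ L => fnot (Undetermined K S)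

end Pool.Agent.Y589.Boards
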