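import Pool.Agent.Y589.Det

/-!
# Supports of names, from a closure argument
-/

namespace Pool.Agent.Y589.Boards

open Set Cardinal Pool.Agent.Helper669.Forcing Pool.Agent.H995R3.Boards
  Pool.Agent.Helper669.Forcing2

universe u v w t k

theorem exists_bound {Θ : Type u} [LinearOrder Θ] (s : Set Θ) (h : #s < Order.cof Θ) :
    ∃ b, ∀ x ∈ s, x < b := by
  by_contra hcon
  push Not at hcon
  exact absurd (Order.cof_le (s := s) hcon) (not_le.2 h)

/-- Every small set of sets is contained in a small closed set `S`: if `u ⊆ S` has fewer than `κ`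
elements then `cl u ⊆ S`, where `cl` is a map applied to members of a family of small sets. -/
theorem exists_closed {D : Type u} {κ μ : Cardinal.{u}} (hκ : κ.IsRegular) (hκμ : κ ≤ μ)
    (cl : Set D → Set D) (hcl : ∀ T : Set D, #T ≤ μ → #(cl T) ≤ μ) (T₀ : Set D)
    (h0 : #T₀ ≤ μ) : ∃ S : Set D, #S ≤ μ ∧ T₀ ⊆ S ∧ ∀ s ⊆ S, #s < κ →
      ∃ T : Set D, s ⊆ T ∧ cl T ⊆ S ∧ #T ≤ μ ∧ T ⊆ S := by
  classical
  have hμ : ℵ₀ ≤ μ := hκ.aleph0_le.trans hκμ
  let I : Type u := κ.ord.ToType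
  have hI : Order.cof I = κ := by
    rw [Ordinal.cof_toType, hκ.cof_ord]
  let g : I → Set D := (wellFounded_lt (α := I)).fix fun i rec =>
    T₀ ∪ ⋃ j : Iio i, (rec j.1 j.2 ∪ cl (rec j.1 j.2))
  have hg : ∀ i, g i = T₀ ∪ ⋃ j : Iio i, (g j.1 ∪ cl (g j.1)) := fun i =>
    (wellFounded_lt (α := I)).fix_eq _ i
  have hsize : ∀ i, #(g i) ≤ μ := by
    intro i
    induction i using WellFoundedLT.induction with
    | ind i ih =>
      rw [hg]
      refine (mk_union_le _ _).trans ((add_le_add h0 ?_).trans (add_eq_self hμ).le)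
      refine (mk_iUnion_le _).trans ?_
      have h2 : #(Iio i) < κ := by
        have h4 := mk_Iio_lt i (by simp [I])
        simpa [I] using h4
      refine (mul_le_mul' (h2.le.trans hκμ) (ciSup_le' fun j => ?_)).trans (mul_eq_self hμ).le
      exact (mk_union_le _ _).trans ((add_le_add (ih j.1 j.2) (hcl _ (ih j.1 j.2))).trans
        (add_eq_self hμ).le)
  have hmono : ∀ i j, i < j → g i ⊆ g j := by
    intro i j hij x hx
    rw [hg j]
    exact Or.inr (mem_iUnion.2 ⟨⟨i, hij⟩, Or.inl hx⟩)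
  have hcl' : ∀ i j, i < j → cl (g i) ⊆ g j := by
    intro i j hij x hx
    rw [hg j]
    exact Or.inr (mem_iUnion.2 ⟨⟨i, hij⟩, Or.inr hx⟩)
  have hsucc : ∀ s : Set I, #s < κ → ∃ i, ∀ j ∈ s, j < i := fun s hs =>
    exists_bound s (by rw [hI]; exact hs)
  have hne : Nonempty I := by
    obtain ⟨i, _⟩ := hsucc ∅ (by simpa using hκ.pos)
    exact ⟨i⟩
  have i₀ : I := Classical.choice hne
  refine ⟨⋃ i, g i, ?_, fun x hx => ?_, fun s hs hsκ => ?_⟩
  · refine (mk_iUnion_le _).trans ?_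
    refine (mul_le_mul' (?_ : #I ≤ μ) (ciSup_le' hsize)).trans (mul_eq_self hμ).le
    rw [mk_ord_toType]
    exact hκμ
  · refine mem_iUnion.2 ⟨i₀, ?_⟩
    rw [hg]
    exact Or.inl hx
  · have h1 : ∀ x ∈ s, ∃ i, x ∈ g i := fun x hx => mem_iUnion.1 (hs hx)
    choose! e he using h1
    obtain ⟨i, hi⟩ := hsucc (e '' s) (mk_image_le.trans_lt hsκ)
    obtain ⟨j, hj⟩ := hsucc {i} (by
      rw [mk_singleton]
      exact one_lt_aleph0.trans_le hκ.aleph0_le)
    exact ⟨g i, fun x hx => hmono _ _ (hi _ ⟨x, hx, rfl⟩) (he x hx),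
      (hcl' i j (hj i rfl)).trans (subset_iUnion g j), hsize i, subset_iUnion g i⟩

open Classical in
/-- the restriction of `r` to `A` -/
noncomputable def res {D : Type u} {M : D → Type v} {𝒮 : Set (Set D)} (h : Good 𝒮) (A : Set D)
    (r : Cond M 𝒮) : Cond M 𝒮 where
  f x := if x ∈ A then r.f x else none
  supp := by
    refine h.sub _ r.supp _ ?_
    intro x hx
    by_cases hA : x ∈ A
    · simpa [hA] using hx
    · simp [hA] at hx

section

variable {D : Type u} {M : D → Type v} {𝒮 : Set (Set D)}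

theorem res_mem (h : Good 𝒮) {A : Set D} {r : Cond M 𝒮} {x : D} (hx : x ∈ A) :
    (res h A r).f x = r.f x := if_pos hx

theorem res_not (h : Good 𝒮) {A : Set D} {r : Cond M 𝒮} {x : D} (hx : x ∉ A) :
    (res h A r).f x = none := if_neg hx

theorem res_some (h : Good 𝒮) {A : Set D} {r : Cond M 𝒮} {x : D} {v : M x}
    (hv : (res h A r).f x = some v) : x ∈ A ∧ r.f x = some v := by
  by_cases hx : x ∈ A
  · rw [res_mem h hx] at hv
    exact ⟨hx, hv⟩
  · rw [res_not h hx] at hv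
    exact absurd hv (by simp)

/-- the domain of a condition -/
def dom (r : Cond M 𝒮) : Set D := {x | r.f x ≠ none}

theorem mem_dom {r : Cond M 𝒮} {x : D} {v : M x} (h : r.f x = some v) : x ∈ dom r := by
  simp [dom, h]

theorem dom_res (h : Good 𝒮) {A : Set D} {r : Cond M 𝒮} : dom (res h A r) ⊆ A := by
  intro z hz
  obtain ⟨v, hv⟩ := Option.ne_none_iff_exists'.1 hz
  exact (res_some _ hv).1

end

/-- `B` is a set of coordinates such that, below the part of `p` outside `B`, the values of the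
name `x` can be decided within `B`. If there are at most `μ` conditions living on a subset of `B`
with at most `μ` elements, then `x` has a support of size at most `μ`. -/
theorem exists_set {D : Type u} {M : D → Type v} {𝒮 : Set (Set D)} (h : Good 𝒮)
    {κ μ : Cardinal.{u}} (hκ : κ.IsRegular) (hκμ : κ ≤ μ) (B : Set D)
    {X : Type u} {Y : Type*} (hX : #X ≤ μ) (x : X → Y → Set (Cond M 𝒮)) (p : Cond M 𝒮)
    (hW : ∀ u : Cond M 𝒮, dom u ⊆ B → (∀ z ∈ B, ∀ v, p.f z = some v → u.f z = some v) →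
      ∀ a, ∃ w ≤ u, dom w ⊆ B ∧ ∃ b, mix h B w p ∈ meets (x a b))
    (hsmall : ∀ r : Cond M 𝒮, #(dom r ∩ B : Set D) < κ)
    (hcount : ∀ T : Set D, T ⊆ B → #T ≤ μ → Cardinal.lift.{u} #{u : Cond M 𝒮 // dom u ⊆ T} ≤
      Cardinal.lift.{max u v} μ) :
    ∃ S : Set D, S ⊆ B ∧ #S ≤ μ ∧ p ∈ Supp S x := by
  classical
  have hμ : ℵ₀ ≤ μ := hκ.aleph0_le.trans hκμ
  have h1 : ∀ (u : Cond M 𝒮) a, ∃ w, (dom u ⊆ B →
      (∀ z ∈ B, ∀ v, p.f z = some v → u.f z = some v) →
      w ≤ u ∧ dom w ⊆ B ∧ ∃ b, mix h B w p ∈ meets (x a b)) := by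
    intro u a
    by_cases hu : dom u ⊆ B
    · by_cases hp : ∀ z ∈ B, ∀ v, p.f z = some v → u.f z = some v
      · obtain ⟨w, hw⟩ := hW u hu hp a
        exact ⟨w, fun _ _ => hw⟩
      · exact ⟨u, fun _ hp' => absurd hp' hp⟩
    · exact ⟨u, fun hu' => absurd hu' hu⟩
  choose W hW' using h1
  let cl : Set D → Set D := fun T =>
    ⋃ t : {u : Cond M 𝒮 // dom u ⊆ T ∩ B} × X, dom (W t.1.1 t.2) ∩ B
  have hcl : ∀ T : Set D, #T ≤ μ → #(cl T) ≤ μ := by
    intro T hT
    have h2 : Cardinal.lift.{u} #{u : Cond M 𝒮 // dom u ⊆ T ∩ B} ≤ Cardinal.lift.{max u v} μ :=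
      hcount (T ∩ B) inter_subset_right ((mk_le_mk_of_subset inter_subset_left).trans hT)
    rw [← Cardinal.lift_le.{max u v}]
    refine (mk_iUnion_le_lift _).trans ?_
    have h3 : ℵ₀ ≤ Cardinal.lift.{max u v} μ := by simpa using hμ
    have h4 : #({u : Cond M 𝒮 // dom u ⊆ T ∩ B} × X) ≤ Cardinal.lift.{max u v} μ := by
      rw [mk_prod]
      refine (mul_le_mul' h2 (Cardinal.lift_le.2 hX)).trans ?_
      exact (mul_eq_self h3).le
    refine (mul_le_mul' (?_ : _ ≤ Cardinal.lift.{max u v} μ) (ciSup_le' fun t => ?_)).trans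
      (mul_eq_self h3).le
    · simpa using h4
    · rw [Cardinal.lift_le]
      exact (hsmall _).le.trans hκμ
  obtain ⟨S, hS, hS0, hS1⟩ := exists_closed hκ hκμ cl hcl (dom p ∩ B)
    ((hsmall p).le.trans hκμ)
  refine ⟨S ∩ B, inter_subset_right, (mk_le_mk_of_subset inter_subset_left).trans hS,
    fun r hr a => ?_⟩
  set u := res h (S ∩ B) r with hu
  have hu1 : dom u ⊆ S ∩ B := dom_res h
  obtain ⟨T, hT1, hT2, hT3, hT4⟩ := hS1 (dom u) (fun z hz => (hu1 hz).1) (by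
    refine lt_of_le_of_lt (mk_le_mk_of_subset ?_) (hsmall u)
    exact fun z hz => ⟨hz, (hu1 hz).2⟩)
  have hu3 : ∀ z ∈ B, ∀ v, p.f z = some v → u.f z = some v := by
    intro z hz v hv
    have h2 : z ∈ S ∩ B := ⟨hS0 ⟨mem_dom hv, hz⟩, hz⟩
    rw [hu, res_mem _ h2]
    exact hr z v hv
  obtain ⟨hw, hwB, b, hb⟩ := hW' u a (fun z hz => (hu1 hz).2) hu3
  have hwS : dom (W u a) ⊆ S ∩ B := fun z hz => ⟨hT2 (mem_iUnion.2
    ⟨(⟨u, fun z hz => ⟨hT1 hz, (hu1 hz).2⟩⟩, a), hz, hwB hz⟩), hwB hz⟩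
  refine ⟨mix h (S ∩ B) (W u a) r, ?_, fun z hz => mix_not _ hz, b, down_meets _ _ hb _ ?_⟩
  · refine mix_le _ (fun z hz v hv => hw z v ?_) fun z _ v hv => hv
    rw [hu, res_mem _ hz]
    exact hv
  · intro z v hv
    by_cases hz : z ∈ B
    · rw [mix_mem _ hz] at hv
      rw [mix_mem _ (hwS (mem_dom hv))]
      exact hv
    · rw [mix_not _ hz] at hv
      rw [mix_not _ fun h => hz h.2]
      exact hr z v hv

end Pool.Agent.Y589.Boards
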