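import Pool.Agent.H995R3.Boards.Main
import Pool.Agent.Helper669.Forcing2
import Pool.Agent.Y589.BDefs

/-!
# Forcing with partial functions whose domains lie in an ideal

The conditions are the partial functions on a set `D` of coordinates whose domains belong to an
ideal closed under countable unions.
-/

namespace Pool.Agent.Y589.Boards

open Set Pool.Agent.Helper669.Forcing Pool.Agent.H995R3.Boards Pool.Agent.Helper669.Forcing2

universe u v w

/-- Subsets of members, singletons and countable unions of members of `𝒮` belong to `𝒮`. -/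
structure Good {D : Type u} (𝒮 : Set (Set D)) : Prop where
  sub : ∀ s ∈ 𝒮, ∀ t ⊆ s, t ∈ 𝒮
  sing : ∀ x, {x} ∈ 𝒮
  iUnion : ∀ s : ℕ → Set D, (∀ n, s n ∈ 𝒮) → (⋃ n, s n) ∈ 𝒮

variable {D : Type u} {M : D → Type v} {𝒮 : Set (Set D)}

theorem Good.union (h : Good 𝒮) {s t : Set D} (hs : s ∈ 𝒮) (ht : t ∈ 𝒮) : s ∪ t ∈ 𝒮 := by
  have h1 := h.iUnion (fun n => if n = 0 then s else t) (by
    intro n
    by_cases hn : n = 0 <;> simp [hn, hs, ht])
  refine h.sub _ h1 _ ?_
  intro x hx
  rcases hx with hx | hx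
  · exact mem_iUnion.2 ⟨0, by simpa using hx⟩
  · exact mem_iUnion.2 ⟨1, by simpa using hx⟩

open Classical in
/-- the condition which is `r` on `A` and `c` off `A` -/
noncomputable def mix (h : Good 𝒮) (A : Set D) (r c : Cond M 𝒮) : Cond M 𝒮 where
  f x := if x ∈ A then r.f x else c.f x
  supp := by
    refine h.sub _ (h.union r.supp c.supp) _ ?_
    intro x hx
    by_cases hA : x ∈ A
    · left
      simpa [hA] using hx
    · right
      simpa [hA] using hx

theorem mix_mem (h : Good 𝒮) {A : Set D} {r c : Cond M 𝒮} {x : D} (hx : x ∈ A) :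
    (mix h A r c).f x = r.f x := if_pos hx

theorem mix_not (h : Good 𝒮) {A : Set D} {r c : Cond M 𝒮} {x : D} (hx : x ∉ A) :
    (mix h A r c).f x = c.f x := if_neg hx

theorem mix_le (h : Good 𝒮) {A : Set D} {r c p : Cond M 𝒮}
    (h1 : ∀ x ∈ A, ∀ v, p.f x = some v → r.f x = some v)
    (h2 : ∀ x ∉ A, ∀ v, p.f x = some v → c.f x = some v) : mix h A r c ≤ p := by
  intro x v hv
  by_cases hx : x ∈ A
  · rw [mix_mem h hx]
    exact h1 x hx v hv
  · rw [mix_not h hx]
    exact h2 x hx v hv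

open Classical in
/-- `c` with the value at `x` changed to `v` -/
noncomputable def upd (h : Good 𝒮) (c : Cond M 𝒮) (x : D) (v : M x) : Cond M 𝒮 where
  f := Function.update c.f x (some v)
  supp := by
    refine h.sub _ (h.union c.supp (h.sing x)) _ ?_
    intro z hz
    by_cases hx : z = x
    · right
      exact hx
    · left
      simpa [hx] using hz

theorem upd_self (h : Good 𝒮) (c : Cond M 𝒮) (x : D) (v : M x) : (upd h c x v).f x = some v := by
  simp [upd]

theorem upd_of_ne (h : Good 𝒮) (c : Cond M 𝒮) {x z : D} (v : M x) (hz : z ≠ x) :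
    (upd h c x v).f z = c.f z := by
  simp [upd, hz]

theorem upd_le (h : Good 𝒮) {c : Cond M 𝒮} {x : D} (v : M x) (hx : c.f x = none) :
    upd h c x v ≤ c := by
  intro z w hw
  by_cases hz : z = x
  · subst hz
    rw [hx] at hw
    exact absurd hw (by simp)
  · rw [upd_of_ne h c v hz]
    exact hw

/-- a lower bound of a decreasing sequence of conditions -/
theorem exists_lim (h : Good 𝒮) (s : ℕ → Cond M 𝒮) (hs : ∀ n, s (n + 1) ≤ s n) :
    ∃ c : Cond M 𝒮, (∀ n, c ≤ s n) ∧ ∀ x v, c.f x = some v → ∃ n, (s n).f x = some v := by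
  classical
  have hanti : ∀ n m, n ≤ m → s m ≤ s n := by
    intro n m hnm
    induction m, hnm using Nat.le_induction with
    | base => exact le_rfl
    | succ m _ ih => exact (hs m).trans ih
  let g : ∀ x, Option (M x) := fun x =>
    if hx : ∃ n, (s n).f x ≠ none then (s (Nat.find hx)).f x else none
  have hg : ∀ x n v, (s n).f x = some v → g x = some v := by
    intro x n v hv
    have hx : ∃ n, (s n).f x ≠ none := ⟨n, by simp [hv]⟩
    have h1 : g x = (s (Nat.find hx)).f x := dif_pos hx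
    rw [h1]
    obtain ⟨w, hw⟩ := Option.ne_none_iff_exists'.1 (Nat.find_spec hx)
    have h2 : Nat.find hx ≤ n := Nat.find_min' hx (by simp [hv])
    have h3 := hanti _ _ h2 x w hw
    rw [hv] at h3
    rw [hw, h3]
  have hg' : ∀ x v, g x = some v → ∃ n, (s n).f x = some v := by
    intro x v hv
    by_cases hx : ∃ n, (s n).f x ≠ none
    · have h1 : g x = (s (Nat.find hx)).f x := dif_pos hx
      rw [h1] at hv
      exact ⟨_, hv⟩
    · have h1 : g x = none := dif_neg hx
      rw [h1] at hv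
      exact absurd hv (by simp)
  refine ⟨⟨g, ?_⟩, fun n x v hv => hg x n v hv, hg'⟩
  refine h.sub _ (h.iUnion (fun n => {x | (s n).f x ≠ none}) fun n => (s n).supp) _ ?_
  intro x hx
  obtain ⟨v, hv⟩ := Option.ne_none_iff_exists'.1 hx
  obtain ⟨n, hn⟩ := hg' x v hv
  exact mem_iUnion.2 ⟨n, by simp [hn]⟩

/-- countably many dense open sets have a common member below each condition -/
theorem exists_all (h : Good 𝒮) (E : ℕ → Set (Cond M 𝒮)) (hE : ∀ n, Down (E n)) (p : Cond M 𝒮)
    (hd : ∀ n, ∀ q ≤ p, ∃ r ≤ q, r ∈ E n) : ∃ r ≤ p, ∀ n, r ∈ E n := by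
  choose! g hg1 hg2 using hd
  let s : ℕ → Cond M 𝒮 := fun n => Nat.rec p (fun n c => g n c) n
  have hs0 : s 0 = p := rfl
  have hs : ∀ n, s (n + 1) = g n (s n) := fun n => rfl
  have hle : ∀ n, s n ≤ p := by
    intro n
    induction n with
    | zero => exact le_rfl
    | succ n ih => rw [hs]; exact (hg1 n _ ih).trans ih
  obtain ⟨c, hc, _⟩ := exists_lim h s fun n => by rw [hs]; exact hg1 n _ (hle n)
  refine ⟨c, hc 0, fun n => hE n _ ?_ c (hc (n + 1))⟩
  rw [hs]
  exact hg2 n _ (hle n)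

/-! ### Supports of names -/

/-- `q` forces that the name `x` of a function only depends on the part of the generic filter
living on `A`: each value can be decided by extending a condition within `A`. -/
def Supp (A : Set D) {X : Type*} {Y : Type*} (x : X → Y → Set (Cond M 𝒮)) : Set (Cond M 𝒮) :=
  {q | ∀ r ≤ q, ∀ a, ∃ r' ≤ r, (∀ z ∉ A, r'.f z = r.f z) ∧ ∃ b, r' ∈ meets (x a b)}

theorem down_Supp {A : Set D} {X : Type*} {Y : Type*} (x : X → Y → Set (Cond M 𝒮)) :
    Down (Supp A x) := fun _ hp _ hq r hr => hp r (hr.trans hq)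

theorem supp_mono {A B : Set D} (hAB : A ⊆ B) {X : Type*} {Y : Type*}
    (x : X → Y → Set (Cond M 𝒮)) : Supp A x ⊆ Supp B x := by
  intro q hq r hr a
  obtain ⟨r', h1, h2, h3⟩ := hq r hr a
  exact ⟨r', h1, fun z hz => h2 z fun h => hz (hAB h), h3⟩

theorem supp_congr {A : Set D} {X : Type*} {Y : Type*} {x y : X → Y → Set (Cond M 𝒮)}
    {q : Cond M 𝒮} (hy : q ∈ IsFun y) (hxy : q ∈ Same x y) (h : q ∈ Supp A x) :
    q ∈ Supp A y := by
  intro r hr a
  obtain ⟨r', h1, h2, b, hb⟩ := h r hr a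
  refine ⟨r', h1, h2, b, meets_of_dense fun s hs => ?_⟩
  obtain ⟨t, ht, b', hb'⟩ := ((isFun_iff.1 hy) a).1 s (hs.trans (h1.trans hr))
  have h3 := same_iff.1 hxy a t (ht.trans (hs.trans (h1.trans hr))) b b'
    (down_meets _ _ hb t (ht.trans hs)) hb'
  subst h3
  exact ⟨t, ht, hb'⟩

theorem supp_agree (h : Good 𝒮) {A : Set D} {X : Type*} {Y : Type*}
    {x : X → Y → Set (Cond M 𝒮)} {q : Cond M 𝒮}
    (hu : ∀ r ≤ q, ∀ a b b', r ∈ meets (x a b) → r ∈ meets (x a b') → b = b')
    (hq : q ∈ Supp A x) {r r' : Cond M 𝒮} (hr : r ≤ q) (hr' : r' ≤ q)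
    (hA : ∀ z ∈ A, r.f z = r'.f z) {a : X} {b b' : Y} (hb : r ∈ meets (x a b))
    (hb' : r' ∈ meets (x a b')) : b = b' := by
  have hs : mix h A r q ≤ q := mix_le h (fun z _ v hv => hr z v hv) fun z _ v hv => hv
  obtain ⟨s, hs1, hs2, b'', hb''⟩ := hq _ hs a
  have key : ∀ t : Cond M 𝒮, t ≤ q → (∀ z ∈ A, r.f z = t.f z) →
      mix h A s t ≤ t ∧ mix h A s t ≤ s := by
    intro t ht hAt
    constructor
    · refine mix_le h (fun z hz v hv => ?_) fun z _ v hv => hv
      apply hs1 z v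
      rw [mix_mem h hz, hAt z hz]
      exact hv
    · refine mix_le h (fun z _ v hv => hv) fun z hz v hv => ?_
      rw [hs2 z hz, mix_not h hz] at hv
      exact ht z v hv
  obtain ⟨h1, h2⟩ := key r hr fun _ _ => rfl
  obtain ⟨h3, h4⟩ := key r' hr' hA
  rw [hu _ (h1.trans hr) a b b'' (down_meets _ _ hb _ h1) (down_meets _ _ hb'' _ h2),
    hu _ (h3.trans hr') a b' b'' (down_meets _ _ hb' _ h3) (down_meets _ _ hb'' _ h4)]

end Pool.Agent.Y589.Boards
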