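import Pool.Agent.Y589.Two

/-!
# Multiboard games are determined if names have supports
-/

namespace Pool.Agent.Y589.Boards

open Set Pool.Agent.Helper669.Forcing Pool.Agent.H995R3.Boards Pool.Agent.Helper669.Forcing2

universe u v w t k

section

variable {P : Type u} [Preorder P] {L : Type w}

/-- the name of the ground model sequence `z` -/
def chk (P : Type u) (z : ℕ → L) : ℕ → L → Set P := fun n l => fground (z n = l)

theorem meets_chk {z : ℕ → L} {n : ℕ} {l : L} {p : P} (h : p ∈ meets (chk P z n l)) : z n = l := by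
  obtain ⟨_, _, _, hs, _⟩ := h p le_rfl
  exact hs

theorem isFun_chk (z : ℕ → L) (p : P) : p ∈ IsFun (chk P z) := by
  rw [isFun_iff]
  intro n
  exact ⟨fun q _ => ⟨q, le_rfl, z n, meets_of_mem rfl⟩,
    fun q _ l l' h h' => (meets_chk h).symm.trans (meets_chk h')⟩

theorem same_chk {z : ℕ → L} {f : ℕ → L → Set P} {p : P} (hf : p ∈ IsFun f)
    (h : ∀ n, p ∈ meets (f n (z n))) : p ∈ Same f (chk P z) := by
  rw [same_iff]
  intro n q hq a b h1 h2
  rw [← meets_chk h2]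
  exact (isFun_iff.1 hf n).2 q hq _ _ h1 (down_meets _ _ (h n) _ hq)

theorem chk_same {z : ℕ → L} {f : ℕ → L → Set P} {p : P} (hf : p ∈ IsFun f)
    (h : ∀ n, p ∈ meets (f n (z n))) : p ∈ Same (chk P z) f := by
  rw [same_iff]
  intro n q hq a b h1 h2
  rw [← meets_chk h1]
  exact (isFun_iff.1 hf n).2 q hq _ _ (down_meets _ _ (h n) _ hq) h2

/-- the name of the characteristic function of `S`, on the sequences of the ground model -/
def chi (S : SetName P ℕ L) : (ℕ → L) → Bool → Set P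
  | z, true => S.mem (chk P z)
  | z, false => fnot (S.mem (chk P z))

theorem down_chi (S : SetName P ℕ L) (z : ℕ → L) (b : Bool) : Down (chi S z b) := by
  cases b
  · exact down_fnot _
  · exact S.down _

theorem isFun_chi (S : SetName P ℕ L) (p : P) : p ∈ IsFun (chi S) := by
  have key : ∀ z (q : P), q ∈ S.mem (chk P z) → q ∈ fnot (S.mem (chk P z)) → False :=
    fun z q h h' => h' q le_rfl h
  rw [isFun_iff]
  intro z
  refine ⟨fun q _ => ?_, fun q _ b b' h h' => ?_⟩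
  · by_cases hq : q ∈ fnot (S.mem (chk P z))
    · exact ⟨q, le_rfl, false, meets_of_mem hq⟩
    · simp only [fnot, Set.mem_ofPred_eq, not_forall, not_not] at hq
      obtain ⟨r, hr, h⟩ := hq
      exact ⟨r, hr, true, meets_of_mem h⟩
  · obtain ⟨r, hr, h1⟩ := exists_of_meets (down_chi S z b) h
    obtain ⟨r', hr', h2⟩ := exists_of_meets (down_chi S z b') (down_meets _ _ h' _ hr)
    have h1' := down_chi S z b _ h1 _ hr'
    cases b <;> cases b'
    · rfl
    · exact (key z r' h2 h1').elim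
    · exact (key z r' h1' h2).elim
    · rfl

theorem isFun_board {K : Type k} {x y : ℕ → K → L → Set P} {p : P}
    (hx : ∀ n, p ∈ IsFun (x n)) (hy : ∀ n, p ∈ IsFun (y n)) (α : K) :
    p ∈ IsFun (board x y α) := by
  rw [isFun_iff]
  intro m
  by_cases h : m % 2 = 0
  · simp only [board, h, if_true]
    exact isFun_iff.1 (hx (m / 2)) α
  · simp only [board, h, if_false]
    exact isFun_iff.1 (hy (m / 2)) α

/-- the sequence with even part `e` and odd part `b` -/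
def zip (e b : ℕ → L) : ℕ → L := fun m => if m % 2 = 0 then e (m / 2) else b (m / 2)

theorem meets_board {K : Type k} {x y : ℕ → K → L → Set P} {p : P} {α : K} {e b : ℕ → L}
    (hx : ∀ n, p ∈ meets (x n α (e n))) (hy : ∀ n, p ∈ meets (y n α (b n))) (m : ℕ) :
    p ∈ meets (board x y α m (zip e b m)) := by
  by_cases h : m % 2 = 0
  · simp only [board, zip, h, if_true]
    exact hx (m / 2)
  · simp only [board, zip, h, if_false]
    exact hy (m / 2)

end

variable {D : Type u} {M : D → Type v} {𝒮 : Set (Set D)} {Θ : Type t} [LinearOrder Θ]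
  {K : Type k} {L : Type w}

theorem determined [WellFoundedLT Θ] [Nonempty L] (Fr : Frame M 𝒮 Θ K L)
    (hF : ∀ (ζ₀ : Θ) n (f : Fin n × K → L → Set (Cond M 𝒮)) (p : Cond M 𝒮), p ∈ IsFun f →
      ∃ q ≤ p, ∃ ζ ≥ ζ₀, q ∈ Supp (Fr.A ζ) f)
    (hS : ∀ (x : (ℕ → L) → Bool → Set (Cond M 𝒮)) (p : Cond M 𝒮), p ∈ IsFun x →
      ∃ q ≤ p, ∃ ζ, q ∈ Supp (Fr.A ζ) x)
    (S : SetName (Cond M 𝒮) ℕ L) (p : Cond M 𝒮) : p ∈ fnot (Undetermined K S) := by
  classical
  intro q _ hq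
  have hcon : ∀ r ≤ q, r ∉ OneWins K S ∧ r ∉ TwoWins K S := fun r hr =>
    ⟨hq.1 r hr, hq.2 r hr⟩
  obtain ⟨q₁, hq₁, ζ₀, hζ₀⟩ := hS (chi S) q (isFun_chi S q)
  have hLev := Fr.hasLev (hF ζ₀)
  -- a play beating the strategy of ONE
  obtain ⟨y, q₂, hq₂, hy, hlose⟩ : ∃ y : ℕ → K → L → Set (Cond M 𝒮), ∃ q₂ ≤ q₁,
      (∀ n, q₂ ∈ IsFun (y n)) ∧ ∀ r ≤ q₂, r ∉ fex fun α : K =>
        S.mem (board (fun n => Fr.one ζ₀ n fun i => y i) y α) := by
    by_contra hno
    push Not at hno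
    refine (hcon q₁ hq₁).1 (mem_fex_of_mem (Fr.one ζ₀) ?_ ⟨Fr.one_isStrategy hLev q₁, fun y =>
      mem_fimp.2 fun r hr hy => hno y r hr hy⟩)
    exact down_fand (down_IsStrategy _) (down_fall fun _ => down_fimp _ _)
  obtain ⟨q₀, hq₀, hq₀'⟩ := exists_all Fr.good
    (fun n => {r | ∃ ζ, r ∈ Fr.Lev ζ₀ (fun i : Fin n => y i) ζ})
    (fun n p hp q hq => by
      obtain ⟨ζ, hζ⟩ := hp
      exact ⟨ζ, Fr.down_Lev _ _ _ _ hζ _ hq⟩) q₂ (fun n r hr => by
        obtain ⟨s, hs, ζ, hζ⟩ := hLev n (fun i : Fin n => y i) r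
          fun i => down_IsFun _ _ (hy i) _ hr
        exact ⟨s, hs, ζ, hζ⟩)
  choose ζ hζ using hq₀'
  obtain ⟨α, hα⟩ := Fr.fresh _ q₀.supp
  let R : Run Fr :=
    { q₀ := q₀
      ζ₀ := ζ₀
      ζ := ζ
      le := fun n => (hζ n).1
      mono := monotone_nat_of_le_succ fun n => by
        by_contra hlt
        push Not at hlt
        refine (hζ n).2.2 (ζ (n + 1)) (hζ (n + 1)).1 hlt q₀ le_rfl fun r hr a => ?_
        exact (hζ (n + 1)).2.1 r hr (Fin.castSucc a.1, a.2)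
      y := y
      fy := fun n => down_IsFun _ _ (hy n) _ hq₀
      lev := hζ
      α := α
      fresh := fun ξ m => by
        by_contra hne
        exact hα ξ m hne }
  -- a play beating the strategy of TWO
  obtain ⟨x, r₁, hr₁, hx, hwin⟩ : ∃ x : ℕ → K → L → Set (Cond M 𝒮), ∃ r₁ ≤ q₀,
      (∀ n, r₁ ∈ IsFun (x n)) ∧ ∃ r ≤ r₁, r ∈ fex fun β : K =>
        S.mem (board x (fun n => R.two (n + 1) fun i => x i) β) := by
    by_contra hno
    push Not at hno
    refine (hcon q₀ (hq₀.trans (hq₂.trans hq₁))).2 (mem_fex_of_mem R.two ?_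
      ⟨R.two_isStrategy, fun x => mem_fimp.2 fun r hr hx => ⟨r, le_rfl, fun s hs h =>
        hno x s (hs.trans hr) (fun n => down_IsFun _ _ (hx n) _ hs) s le_rfl h⟩⟩)
    exact down_fand (down_IsStrategy _) (down_fall fun _ => down_fimp _ _)
  obtain ⟨r₂, hr₂, hr₂'⟩ := hwin
  obtain ⟨r₃, hr₃, β, hβ⟩ := mem_fex.1 hr₂' r₂ le_rfl
  have hr₃₁ : r₃ ≤ r₁ := hr₃.trans hr₂
  obtain ⟨r₄, hr₄, he⟩ := exists_all Fr.good (fun n => {r | ∃ l, r ∈ meets (x n β l)})
    (fun n p hp q hq => by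
      obtain ⟨l, hl⟩ := hp
      exact ⟨l, down_meets _ _ hl _ hq⟩) r₃ (fun n r hr => by
        obtain ⟨s, hs, l, hl⟩ := ((isFun_iff.1 (hx n)) β).1 r (hr.trans hr₃₁)
        exact ⟨s, hs, l, hl⟩)
  choose e he using he
  obtain ⟨r₅, hr₅, hc⟩ := exists_all Fr.good (fun n => {r | ∃ c, r ∈ R.C e n c})
    (fun n p hp q hq => by
      obtain ⟨c, hc⟩ := hp
      exact ⟨c, R.down_C _ _ _ _ hc _ hq⟩) r₄ (fun n r hr =>
        R.exists_C e n r (hr.trans (hr₄.trans (hr₃₁.trans hr₁))))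
  choose c hc using hc
  have hr₅₁ : r₅ ≤ r₁ := hr₅.trans (hr₄.trans hr₃₁)
  have hr₅₀ : r₅ ≤ q₀ := hr₅₁.trans hr₁
  have hinv : ∀ n, R.Inv n (c n) ∧ R.Low r₅ (c n) := fun n => R.C_inv e n hr₅₀ (hc n)
  have hE : ∀ n, c (n + 1) ∈ R.E (c n) n (e n) := by
    intro n
    obtain ⟨d, h1, h2⟩ := hc (n + 1)
    obtain rfl := R.C_unique e n h1 (hc n)
    exact h2.1
  have hb : ∀ n, ∃ b, c (n + 1) ∈ meets (y n α b) := fun n => (hE n).2.2
  choose b hb using hb
  -- the play on the board `β`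
  have hxf : ∀ n, r₅ ∈ IsFun (x n) := fun n => down_IsFun _ _ (hx n) _ hr₅₁
  have hmem : r₅ ∈ S.mem (chk _ (zip e b)) := by
    have h1 : r₅ ∈ IsFun (board x (fun n => R.two (n + 1) fun i => x i) β) :=
      isFun_board hxf (fun n => R.two_isFun hr₅₀ fun i => hxf i) β
    refine S.ext _ _ _ h1 (isFun_chk _ _) (same_chk h1 fun m => ?_)
      (S.down _ _ hβ _ (hr₅.trans hr₄))
    refine meets_board (fun n => down_meets _ _ (he n) _ hr₅) (fun n => meets_of_mem ?_) m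
    exact ⟨e, fun i => down_meets _ _ (he i) _ hr₅, c (n + 1), hc (n + 1), hb n⟩
  -- the play on the board `α`
  obtain ⟨cω, hcω, hcω'⟩ := exists_lim Fr.good c fun n => (hE n).1.trans (R.hat_le (hinv n).1 _)
  have hc0 : c 0 = q₀ := hc 0
  set r₆ := mix Fr.good (Fr.A ζ₀) r₅ cω with hr₆
  have hr₆c : r₆ ≤ cω := by
    refine mix_le _ (fun z hz v hv => ?_) fun z _ v hv => hv
    obtain ⟨n, hn⟩ := hcω' z v hv
    exact (hinv n).2 z hz v hn
  have hr₆₀ : r₆ ≤ q₀ := hr₆c.trans (hc0 ▸ hcω 0)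
  have hmem₆ : r₆ ∈ S.mem (chk _ (zip e b)) := by
    refine S.dense _ _ fun s hs => ?_
    by_cases hsn : s ∈ fnot (S.mem (chk _ (zip e b)))
    · exfalso
      have hr₇ : mix Fr.good (Fr.A ζ₀) s r₅ ≤ r₅ := by
        refine mix_le _ (fun z hz v hv => hs z v ?_) fun z _ v hv => hv
        rw [hr₆, mix_mem _ hz]
        exact hv
      have h1 := supp_agree Fr.good (fun r _ a b b' h h' =>
        (isFun_iff.1 (isFun_chi S r) a).2 r le_rfl b b' h h') hζ₀
        (hr₇.trans (hr₅₀.trans (hq₀.trans hq₂))) (hs.trans (hr₆₀.trans (hq₀.trans hq₂)))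
        (fun z hz => mix_mem _ hz) (a := zip e b) (b := true) (b' := false)
        (meets_of_mem (S.down _ _ hmem _ hr₇)) (meets_of_mem hsn)
      exact Bool.noConfusion h1
    · simp only [fnot, Set.mem_ofPred_eq, not_forall, not_not] at hsn
      obtain ⟨t, ht, h⟩ := hsn
      exact ⟨t, ht, h⟩
  have hyf : ∀ n, r₆ ∈ IsFun (y n) := fun n => down_IsFun _ _ (hy n) _ (hr₆₀.trans hq₀)
  have hof : ∀ n, r₆ ∈ IsFun (Fr.one ζ₀ n fun i : Fin n => y i) := fun n =>
    strat_isFun (Fr.one_isStrategy hLev r₆) n _ fun i => hyf i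
  refine hlose r₆ (hr₆₀.trans hq₀) (mem_fex_of_mem α (S.down _) ?_)
  have h1 : r₆ ∈ IsFun (board (fun n => Fr.one ζ₀ n fun i : Fin n => y i) y α) :=
    isFun_board hof hyf α
  refine S.ext _ _ _ (isFun_chk _ _) h1 (chk_same h1 fun m => ?_) hmem₆
  refine meets_board (fun n => meets_of_mem ?_) (fun n => ?_) m
  · refine ⟨ζ n, Fr.down_Lev _ _ _ _ (hζ n) _ hr₆₀, R.pick n (e n), ?_, R.dec_pick n (e n)⟩
    have h2 : r₆.f (R.x n) = some (R.pick n (e n)) := by
      rw [hr₆, mix_not _ (R.x_not_mem_low n)]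
      exact ((hcω (n + 1)).trans (hE n).1) _ _ (upd_self _ _ _ _)
    exact h2
  · exact down_meets _ _ (hb n) _ (hr₆c.trans (hcω (n + 1)))

end Pool.Agent.Y589.Boards
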