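import Pool.Agent.Y589.BDefs

/-!
# The product of the forcings adding functions to the cardinals `(ℶ_{ω i})⁺`
-/

namespace Pool.Agent.Y589.Boards

open Cardinal Ordinal

/-- `(ℶ_{ω i})⁺` -/
noncomputable def kap (i : Ordinal.{0}) : Cardinal.{0} := Order.succ (ℶ_ (ω * i))

/-- The coordinates are the pairs `(i, j)`, where `i` is an ordinal and `j` belongs to a set with
`2 ^ 2 ^ ℶ_{ω i}` elements. -/
abbrev Coord : Type 1 := Σ i : Ordinal.{0}, ((2 : Cardinal.{0}) ^ ((2 : Cardinal.{0}) ^ ℶ_ (ω * i))).out

/-- the sets of coordinates with bounded first components, which have, for every `i`, fewer than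
`kap i` members with first component at most `i` -/
def Easton : Set (Set Coord) :=
  {s | (∃ j, ∀ x ∈ s, x.1 < j) ∧
    ∀ i, #{x : Coord | x ∈ s ∧ x.1 ≤ i} < Cardinal.lift.{1} (kap i)}

/-- All partial functions on the coordinates with domains in `Easton`, with values at `(i, j)` in
a set with `kap i` elements: the Easton product, over all ordinals `i`, of the forcings adding
`2 ^ 2 ^ ℶ_{ω i}` many functions from `kap i` to `kap i`. -/
abbrev EastonFn : Type 1 := Cond (fun x : Coord => (kap x.1).out) Easton

end Pool.Agent.Y589.Boards
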