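import Pool.Agent.Y589.High
import Pool.Agent.Y589.Add
import Pool.Agent.Y589.EDefs

/-!
# Counting the conditions of the Easton product
-/

namespace Pool.Agent.Y589.Boards

open Cardinal Ordinal Pool.Agent.Helper669.Forcing Pool.Agent.H995R3.Boards
  Pool.Agent.Helper669.Forcing2

universe u v w

section

variable {D : Type u} {M : D → Type v} {𝒮 : Set (Set D)}

/-- the graph of a condition with domain contained in `A` -/
def graph (A : Set D) (u : Cond M 𝒮) : Set (Σ x : A, M x.1) := {z | u.f z.1.1 = some z.2}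

theorem graph_inj {A : Set D} {u u' : Cond M 𝒮} (hu : dom u ⊆ A) (hu' : dom u' ⊆ A)
    (h : graph A u = graph A u') : u = u' := by
  have h1 : ∀ (x : A) (v : M x.1), u.f x.1 = some v ↔ u'.f x.1 = some v := by
    intro x v
    have h3 : (⟨x, v⟩ : Σ x : A, M x.1) ∈ graph A u ↔ (⟨x, v⟩ : Σ x : A, M x.1) ∈ graph A u' := by
      rw [h]
    exact h3
  have h5 : u.f = u'.f := by
    funext x
    rcases hx : u.f x with _ | v
    · rcases hx' : u'.f x with _ | v'
      · rfl
      · have := (h1 ⟨x, hu' (mem_dom hx')⟩ v').2 hx'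
        simp only at this
        rw [hx] at this
        exact absurd this (by simp)
    · exact ((h1 ⟨x, hu (mem_dom hx)⟩ v).1 hx).symm
  rcases u with ⟨f, hf⟩
  rcases u' with ⟨f', hf'⟩
  simp only at h5
  subst h5
  rfl

theorem mk_graph_le {A : Set D} (u : Cond M 𝒮) :
    #(graph A u) ≤ Cardinal.lift.{v} #(dom u ∩ A : Set D) := by
  have h1 : Function.Injective (fun z : graph A u =>
      (⟨z.1.1.1, by
        have h2 := z.2
        exact ⟨mem_dom h2, z.1.1.2⟩⟩ : (dom u ∩ A : Set D))) := by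
    rintro ⟨⟨x, v⟩, h⟩ ⟨⟨x', v'⟩, h'⟩ he
    have he' : x.1 = x'.1 := by
      have h5 := congrArg Subtype.val he
      exact h5
    have hx : x = x' := Subtype.ext he'
    subst hx
    have h3 : u.f x.1 = some v := h
    have h4 : u.f x.1 = some v' := h'
    rw [h3] at h4
    have hv : v = v' := Option.some.inj h4
    subst hv
    rfl
  have h2 := Cardinal.lift_mk_le_lift_mk_of_injective h1
  rw [Cardinal.lift_id', Cardinal.lift_umax.{u, v}] at h2
  exact h2

/-- few partial functions -/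
theorem mk_cond_le' {κ μ : Cardinal.{max u v}} (h0 : ℵ₀ ≤ κ) (hκμ : κ ≤ μ)
    (hμ : ∀ ν < κ, μ ^ ν ≤ μ) (A : Set D) (hA : #(Σ x : A, M x.1) ≤ μ)
    (hd : ∀ u : Cond M 𝒮, Cardinal.lift.{v} #(dom u ∩ A : Set D) < κ) :
    #{u : Cond M 𝒮 // dom u ⊆ A} ≤ μ := by
  have hgr : Function.Injective (fun u : {u : Cond M 𝒮 // dom u ⊆ A} =>
      (⟨graph A u.1, (mk_graph_le u.1).trans_lt (hd u.1)⟩ : {t : Set (Σ x : A, M x.1) // #t < κ})) := by
    intro u u' h
    exact Subtype.ext (graph_inj u.2 u'.2 (congrArg Subtype.val h))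
  exact (mk_le_of_injective hgr).trans (mk_small_sets h0 hκμ hμ hA)

/-- a rough bound -/
theorem mk_cond_le_pow (A : Set D) : #{u : Cond M 𝒮 // dom u ⊆ A} ≤ 2 ^ #(Σ x : A, M x.1) := by
  have hgr : Function.Injective (fun u : {u : Cond M 𝒮 // dom u ⊆ A} => graph A u.1) := by
    intro u u' h
    exact Subtype.ext (graph_inj u.2 u'.2 h)
  refine (mk_le_of_injective hgr).trans ?_
  rw [mk_set]

end

section

/-- `ℶ_{ω i}` -/
noncomputable def bet (i : Ordinal.{0}) : Cardinal.{0} := ℶ_ (ω * i)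

theorem kap_eq (i : Ordinal.{0}) : kap i = Order.succ (bet i) := rfl

theorem aleph0_le_bet (i : Ordinal.{0}) : ℵ₀ ≤ bet i := aleph0_le_beth _

theorem bet_mono {i j : Ordinal.{0}} (h : i ≤ j) : bet i ≤ bet j :=
  beth_mono (mul_le_mul_right h ω)

theorem kap_mono {i j : Ordinal.{0}} (h : i ≤ j) : kap i ≤ kap j :=
  Order.succ_le_succ (bet_mono h)

theorem kap_le_two_pow (i : Ordinal.{0}) : kap i ≤ 2 ^ bet i := Order.succ_le_of_lt (cantor _)

theorem kap_regular (i : Ordinal.{0}) : (kap i).IsRegular := isRegular_succ (aleph0_le_bet i)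

theorem aleph0_lt_kap (i : Ordinal.{0}) : ℵ₀ < kap i :=
  (aleph0_le_bet i).trans_lt (Order.lt_succ _)

theorem card_le_bet (i : Ordinal.{0}) : i.card ≤ bet i := by
  exact le_trans (Ordinal.card_le_card (Ordinal.le_mul_right i omega0_pos))
    (Ordinal.card_le_beth (ω * i))

theorem jump {i j : Ordinal.{0}} (h : i < j) :
    (2 : Cardinal.{0}) ^ ((2 : Cardinal.{0}) ^ ((2 : Cardinal.{0}) ^ bet i)) < bet j := by
  have h1 : (2 : Cardinal.{0}) ^ ((2 : Cardinal.{0}) ^ ((2 : Cardinal.{0}) ^ bet i)) =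
      ℶ_ (ω * i + 1 + 1 + 1) := by
    rw [beth_add_one, beth_add_one, beth_add_one]
    rfl
  rw [h1]
  refine beth_strictMono ?_
  have h2 : ω * i + ω ≤ ω * j := by
    rw [← mul_add_one]
    exact mul_le_mul_right (Order.add_one_le_of_lt h) ω
  refine lt_of_lt_of_le ?_ h2
  rw [add_assoc, add_assoc]
  refine add_lt_add_right ?_ _
  have h3 : ((1 : Ordinal.{0}) + (1 + 1)) = ((3 : ℕ) : Ordinal.{0}) := by norm_num
  rw [h3]
  exact natCast_lt_omega0 3

end

end Pool.Agent.Y589.Boards
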