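import Pool.Agent.Y589.Easton

/-!
# All multiboard games are determined in the extension by the Easton product
-/

namespace Pool.Agent.Y589.Boards

open Cardinal Pool.Agent.Helper669.Forcing Pool.Agent.H995R3.Boards
  Pool.Agent.Helper669.Forcing2

universe u v w

theorem supp_easton (i : Ordinal.{0}) {X : Type 1} {Y : Type*}
    (hX : #X ≤ Cardinal.lift.{1} ((2 : Cardinal.{0}) ^ bet i)) (x : X → Y → Set EastonFn)
    (p : EastonFn) (hp : p ∈ IsFun x) :
    ∃ q ≤ p, ∃ S : Set Coord, #S ≤ Cardinal.lift.{1} ((2 : Cardinal.{0}) ^ bet i) ∧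
      q ∈ Supp S x := by
  have h0 : (2 : Cardinal.{0}) ^ bet i ≤
      (2 : Cardinal.{0}) ^ ((2 : Cardinal.{0}) ^ ((2 : Cardinal.{0}) ^ bet i)) :=
    (cantor _).le.trans (cantor _).le
  have h1 : ℵ₀ ≤ Cardinal.lift.{1} ((2 : Cardinal.{0}) ^ ((2 : Cardinal.{0}) ^
      ((2 : Cardinal.{0}) ^ bet i))) := by
    rw [← Cardinal.lift_aleph0.{1, 0}, Cardinal.lift_le]
    exact (aleph0_le_bet i).trans ((cantor _).le.trans h0)
  have hT : #({u : EastonFn // dom u ⊆ low i} × X) ≤ Cardinal.lift.{1}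
      ((2 : Cardinal.{0}) ^ ((2 : Cardinal.{0}) ^ ((2 : Cardinal.{0}) ^ bet i))) := by
    rw [mk_prod, Cardinal.lift_id, Cardinal.lift_id]
    exact (mul_le_mul' (count_low i) (hX.trans (Cardinal.lift_le.2 h0))).trans (mul_eq_self h1).le
  obtain ⟨q, hq, _, hq'⟩ := exists_high good_easton (low i) x p hp fun S f h1 h2 =>
    easton_closed i WellOrderingRel hT S f h1 h2
  obtain ⟨S, _, hS, hS'⟩ := exists_set good_easton (κ := Cardinal.lift.{1} (kap i))
    (kap_regular i).lift (Cardinal.lift_le.2 (kap_le_two_pow i)) (low i) hX x q hq'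
    (fun r => by
      refine lt_of_le_of_lt (mk_le_mk_of_subset ?_) (r.supp.2 i)
      exact fun z hz => ⟨hz.1, hz.2⟩)
    (fun T hT1 hT2 => by
      rw [Cardinal.lift_le]
      exact count_small i T hT1 hT2)
  exact ⟨q, hq, S, hS, hS'⟩

/-- the frame -/
noncomputable def efr (i : Ordinal.{0}) {Θ : Type 1} [LinearOrder Θ]
    (e : Θ × ℕ × (kap i).out ↪ ((2 : Cardinal.{0}) ^ ((2 : Cardinal.{0}) ^ ℶ_ (Ordinal.omega0 * i))).out)
    {L : Type} (g : (kap i).out → L) (hg : Function.Surjective g) :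
    Frame (fun x : Coord => (kap x.1).out) Easton Θ (kap i).out L where
  good := good_easton
  ι ξ m α := ⟨i, e (ξ, m, α)⟩
  inj ξ m α ξ' m' α' h := by simpa using h
  dec _ _ _ := g
  surj _ _ _ := hg
  fresh s hs := by
    by_contra hcon
    push Not at hcon
    choose ξ m h using hcon
    refine absurd (hs.2 i) (not_lt.2 ?_)
    have h1 : Function.Injective (fun α : (kap i).out =>
        (⟨(⟨i, e (ξ α, m α, α)⟩ : Coord), h α, le_rfl⟩ : {x : Coord | x ∈ s ∧ x.1 ≤ i})) := by
      intro α β hαβ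
      have h2 := congrArg Subtype.val hαβ
      have h4 : ξ α = ξ β ∧ m α = m β ∧ α = β := by simpa using h2
      exact h4.2.2
    have h3 := Cardinal.lift_mk_le_lift_mk_of_injective h1
    rw [mk_out, Cardinal.lift_uzero] at h3
    exact h3

theorem determined_easton (i : Ordinal.{0}) {L : Type} (hL : Nonempty L) (hLi : #L ≤ kap i)
    (p : EastonFn) : p ∈ AllDetermined EastonFn (kap i).out L := by
  intro S
  obtain ⟨e⟩ : Nonempty (L ↪ (kap i).out) := by
    rw [← Cardinal.le_def, mk_out]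
    exact hLi
  have hg : Function.Surjective (Function.invFun e) := Function.invFun_surjective e.injective
  set μ : Cardinal.{1} := Cardinal.lift.{1} ((2 : Cardinal.{0}) ^ bet i) with hμ
  have h2 : ℵ₀ ≤ μ := by
    rw [hμ, ← Cardinal.lift_aleph0.{1, 0}, Cardinal.lift_le]
    exact (aleph0_le_bet i).trans (cantor _).le
  have hK : Cardinal.lift.{1} (kap i) ≤ μ := Cardinal.lift_le.2 (kap_le_two_pow i)
  let Θ : Type 1 := (Order.succ μ).ord.ToType
  have hcof : Order.cof Θ = Order.succ μ := by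
    rw [Ordinal.cof_toType, (isRegular_succ h2).cof_ord]
  have hΘ : μ < Order.cof Θ := by
    rw [hcof]
    exact Order.lt_succ _
  have hne : Nonempty Θ := by
    rw [← Order.cof_ne_zero_iff, hcof]
    exact (Order.bot_lt_succ _).ne'
  obtain ⟨e'⟩ : Nonempty (Θ × ℕ × (kap i).out ↪
      ((2 : Cardinal.{0}) ^ ((2 : Cardinal.{0}) ^ ℶ_ (Ordinal.omega0 * i))).out) := by
    rw [← Cardinal.lift_mk_le', mk_out]
    have h3 : ℵ₀ ≤ Order.succ μ := h2.trans (Order.le_succ _)
    have h4 : #(Θ × ℕ × (kap i).out) ≤ Order.succ μ := by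
      simp only [mk_prod, Cardinal.lift_id, mk_nat, Cardinal.lift_aleph0, Cardinal.lift_uzero, Θ,
        mk_ord_toType, mk_out, Cardinal.lift_mul]
      refine (mul_le_mul' le_rfl (mul_le_mul' h3 (hK.trans (Order.le_succ _)))).trans ?_
      rw [mul_eq_self h3, mul_eq_self h3]
    rw [Cardinal.lift_uzero]
    refine h4.trans (Order.succ_le_of_lt ?_)
    exact Cardinal.lift_lt.2 (cantor _)
  refine determined (efr i e' _ hg) (fun ζ₀ n f p hp => ?_) (fun x p hp => ?_) S p
  · have hX : #(ULift.{1} (Fin n × (kap i).out)) ≤ μ := by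
      rw [mk_uLift, hμ, Cardinal.lift_le, mk_prod, Cardinal.lift_id, Cardinal.lift_id, mk_out]
      have h3 : ℵ₀ ≤ (2 : Cardinal.{0}) ^ bet i := (aleph0_le_bet i).trans (cantor _).le
      refine (mul_le_mul' ?_ (kap_le_two_pow i)).trans (mul_eq_self h3).le
      exact (lt_aleph0_of_finite _).le.trans h3
    obtain ⟨q, hq, S, hS, hS'⟩ := supp_easton i hX
      (fun a : ULift.{1} (Fin n × (kap i).out) => f a.down) p (by
        rw [isFun_iff] at hp ⊢
        exact fun a => hp a.down)
    obtain ⟨ζ, hζ, h⟩ := exists_supp_level (efr i e' _ hg) hΘ h2 hS hS' ζ₀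
    exact ⟨q, hq, ζ, hζ, fun r hr a => h r hr ⟨a⟩⟩
  · have hX : #(ULift.{1} (ℕ → L)) ≤ μ := by
      rw [mk_uLift, hμ, Cardinal.lift_le, mk_arrow, Cardinal.lift_uzero, mk_nat,
        Cardinal.lift_aleph0]
      refine (power_le_power_right (hLi.trans (kap_le_two_pow i))).trans ?_
      rw [← power_mul]
      refine power_le_power_left two_ne_zero ?_
      exact (mul_le_mul' le_rfl (aleph0_le_bet i)).trans (mul_eq_self (aleph0_le_bet i)).le
    obtain ⟨q, hq, S, hS, hS'⟩ := supp_easton i hX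
      (fun (a : ULift.{1} (ℕ → L)) b => x a.down b) p (by
        rw [isFun_iff] at hp ⊢
        exact fun a => hp a.down)
    obtain ⟨ζ, _, h⟩ := exists_supp_level (efr i e' _ hg) hΘ h2 hS hS' (Classical.arbitrary _)
    exact ⟨q, hq, ζ, fun r hr a => h r hr ⟨a⟩⟩

/-- for every set of symbols there is a set of boards -/
theorem exists_boards {L : Type} (hL : Nonempty L) : ∃ K : Type, Nonempty K ∧
    ∀ p : EastonFn, p ∈ AllDetermined EastonFn K L := by
  let i : Ordinal.{0} := (#L).ord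
  have hi : #L ≤ kap i := by
    have h1 : #L = i.card := (card_ord _).symm
    rw [h1]
    exact (card_le_bet i).trans (Order.le_succ _)
  refine ⟨(kap i).out, ?_, fun p => determined_easton i hL hi p⟩
  rw [← mk_ne_zero_iff, mk_out]
  exact (kap_regular i).ne_zero

end Pool.Agent.Y589.Boards
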