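import Pool.Agent.Y589.ECount

/-!
# The Easton product
-/

namespace Pool.Agent.Y589.Boards

open Cardinal Ordinal Pool.Agent.Helper669.Forcing Pool.Agent.H995R3.Boards
  Pool.Agent.Helper669.Forcing2

universe u v w

/-- the coordinates with first component at most `i` -/
def low (i : Ordinal.{0}) : Set Coord := {x | x.1 ≤ i}

theorem mk_fiber_le (j : Ordinal.{0}) :
    #{x : Coord | x.1 = j} ≤ Cardinal.lift.{1} ((2 : Cardinal.{0}) ^ ((2 : Cardinal.{0}) ^ bet j)) := by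
  have h1 : {x : Coord | x.1 = j} =
      Set.range (fun y : ((2 : Cardinal.{0}) ^ ((2 : Cardinal.{0}) ^ ℶ_ (ω * j))).out =>
        (⟨j, y⟩ : Coord)) := by
    ext x
    constructor
    · intro hx
      have hx' : x.1 = j := hx
      subst hx'
      exact ⟨x.2, rfl⟩
    · rintro ⟨y, rfl⟩
      rfl
  rw [h1]
  have h2 := mk_range_le_lift (f := fun y : ((2 : Cardinal.{0}) ^ ((2 : Cardinal.{0}) ^
    ℶ_ (ω * j))).out => (⟨j, y⟩ : Coord))
  rw [mk_out, Cardinal.lift_uzero] at h2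
  exact h2

theorem mk_low_le (i : Ordinal.{0}) :
    #(low i) ≤ Cardinal.lift.{1} ((2 : Cardinal.{0}) ^ ((2 : Cardinal.{0}) ^ bet i)) := by
  have h1 : low i = ⋃ j : Set.Iic i, {x : Coord | x.1 = j.1} := by
    ext x
    constructor
    · intro hx
      exact Set.mem_iUnion.2 ⟨⟨x.1, hx⟩, rfl⟩
    · intro hx
      obtain ⟨j, hj⟩ := Set.mem_iUnion.1 hx
      have hj' : x.1 = j.1 := hj
      show x.1 ≤ i
      rw [hj']
      exact j.2
  rw [h1]
  have h0 : ℵ₀ ≤ (2 : Cardinal.{0}) ^ ((2 : Cardinal.{0}) ^ bet i) :=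
    (aleph0_le_bet i).trans ((cantor _).le.trans (cantor _).le)
  have h2 : #(Set.Iic i) ≤
      Cardinal.lift.{1} ((2 : Cardinal.{0}) ^ ((2 : Cardinal.{0}) ^ bet i)) := by
    have h3 : Set.Iic i = Set.Iio (i + 1) := by
      ext x
      simp [Order.lt_add_one_iff]
    rw [h3, Cardinal.mk_Iio_ordinal, Cardinal.lift_le, Ordinal.card_add, Ordinal.card_one]
    refine (add_le_add (card_le_bet i) (one_le_aleph0.trans (aleph0_le_bet i))).trans ?_
    rw [add_eq_self (aleph0_le_bet i)]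
    exact (cantor _).le.trans (cantor _).le
  have h4 : ℵ₀ ≤ Cardinal.lift.{1} ((2 : Cardinal.{0}) ^ ((2 : Cardinal.{0}) ^ bet i)) := by
    rw [← Cardinal.lift_aleph0.{1, 0}, Cardinal.lift_le]
    exact h0
  refine (mk_iUnion_le _).trans ((mul_le_mul' h2 (ciSup_le' fun j => ?_)).trans (mul_eq_self h4).le)
  refine (mk_fiber_le j.1).trans ?_
  rw [Cardinal.lift_le]
  exact power_le_power_left two_ne_zero (power_le_power_left two_ne_zero (bet_mono j.2))

/-- the number of pairs of a coordinate in `T` and a value -/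
theorem mk_sigma_le (i : Ordinal.{0}) (T : Set Coord) (hT : T ⊆ low i) {μ : Cardinal.{0}}
    (hμ : (2 : Cardinal.{0}) ^ bet i ≤ μ) (h : #T ≤ Cardinal.lift.{1} μ) :
    #(Σ x : T, (kap x.1.1).out) ≤ Cardinal.lift.{1} μ := by
  have h0 : ℵ₀ ≤ μ := (aleph0_le_bet i).trans ((cantor _).le.trans hμ)
  have h4 : ℵ₀ ≤ Cardinal.lift.{1} μ := by simpa using h0
  rw [mk_sigma]
  refine (sum_le_sum _ (fun _ => μ) fun x => ?_).trans ?_
  · rw [mk_out]
    exact (kap_mono (hT x.2)).trans ((kap_le_two_pow i).trans hμ)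
  · rw [sum_const]
    simp only [Cardinal.lift_uzero]
    exact (mul_le_mul' h le_rfl).trans (mul_eq_self h4).le

theorem count_small (i : Ordinal.{0}) (T : Set Coord) (hT : T ⊆ low i)
    (h : #T ≤ Cardinal.lift.{1} ((2 : Cardinal.{0}) ^ bet i)) :
    #{u : EastonFn // dom u ⊆ T} ≤ Cardinal.lift.{1} ((2 : Cardinal.{0}) ^ bet i) := by
  refine mk_cond_le' (κ := Cardinal.lift.{1} (kap i)) ?_ ?_ ?_ T (mk_sigma_le i T hT le_rfl h) ?_
  · simpa using (aleph0_lt_kap i).le
  · exact Cardinal.lift_le.2 (kap_le_two_pow i)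
  · intro ν hν
    obtain ⟨ν', hν', rfl⟩ := Cardinal.lt_lift_iff.1 hν
    rw [← lift_power, Cardinal.lift_le, ← power_mul]
    have h1 : ν' ≤ bet i := Order.lt_succ_iff.1 hν'
    exact power_le_power_left two_ne_zero ((mul_le_mul' le_rfl h1).trans
      (mul_eq_self (aleph0_le_bet i)).le)
  · intro u
    have h2 := u.supp.2 i
    rw [Cardinal.lift_uzero]
    refine lt_of_le_of_lt (mk_le_mk_of_subset ?_) h2
    exact fun z hz => ⟨hz.1, hT hz.2⟩

theorem count_low (i : Ordinal.{0}) : #{u : EastonFn // dom u ⊆ low i} ≤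
    Cardinal.lift.{1} ((2 : Cardinal.{0}) ^ ((2 : Cardinal.{0}) ^ ((2 : Cardinal.{0}) ^ bet i))) := by
  refine (mk_cond_le_pow (low i)).trans ?_
  rw [lift_power, Cardinal.lift_two]
  refine power_le_power_left two_ne_zero ?_
  exact mk_sigma_le i (low i) subset_rfl (cantor _).le (mk_low_le i)

theorem good_easton : Good Easton where
  sub s hs t ht := by
    obtain ⟨⟨j, hj⟩, h⟩ := hs
    refine ⟨⟨j, fun x hx => hj x (ht hx)⟩, fun i => ?_⟩
    refine (mk_le_mk_of_subset ?_).trans_lt (h i)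
    exact fun x hx => ⟨ht hx.1, hx.2⟩
  sing x := by
    refine ⟨⟨x.1 + 1, fun z hz => ?_⟩, fun i => ?_⟩
    · rw [hz]
      exact Order.lt_add_one_iff.2 le_rfl
    · refine lt_of_le_of_lt (mk_le_mk_of_subset (t := ({x} : Set Coord)) fun z hz => hz.1) ?_
      rw [mk_singleton]
      have h1 : (1 : Cardinal.{0}) < kap i := one_lt_aleph0.trans (aleph0_lt_kap i)
      have h2 := Cardinal.lift_lt.{0, 1}.2 h1
      simpa using h2
  iUnion s hs := by
    refine ⟨?_, fun i => ?_⟩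
    · choose j hj using fun n => (hs n).1
      refine ⟨(⨆ n, j n) + 1, fun x hx => ?_⟩
      obtain ⟨n, hn⟩ := Set.mem_iUnion.1 hx
      refine (hj n x hn).trans_le ((le_ciSup (bddAbove_of_small (s := Set.range j)) n).trans ?_)
      exact (Order.lt_add_one_iff.2 le_rfl).le
    · have h1 : {x : Coord | x ∈ (⋃ n, s n) ∧ x.1 ≤ i} =
          ⋃ n : ULift.{1} ℕ, {x : Coord | x ∈ s n.down ∧ x.1 ≤ i} := by
        ext x
        constructor
        · rintro ⟨hx, hi⟩
          obtain ⟨n, hn⟩ := Set.mem_iUnion.1 hx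
          exact Set.mem_iUnion.2 ⟨⟨n⟩, hn, hi⟩
        · intro hx
          obtain ⟨n, hn, hi⟩ := Set.mem_iUnion.1 hx
          exact ⟨Set.mem_iUnion.2 ⟨n.down, hn⟩, hi⟩
      rw [h1, card_iUnion_lt_iff_forall_of_isRegular (kap_regular i).lift (by
        simpa using aleph0_lt_kap i)]
      exact fun n => (hs n.down).2 i

theorem easton_closed (i : Ordinal.{0}) {T : Type 1} (r : T → T → Prop) [IsWellOrder T r]
    (hT : #T ≤ Cardinal.lift.{1} ((2 : Cardinal.{0}) ^ ((2 : Cardinal.{0}) ^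
      ((2 : Cardinal.{0}) ^ bet i)))) (S : Set T) (f : T → EastonFn)
    (hdom : ∀ s ∈ S, dom (f s) ⊆ (low i)ᶜ) (hdec : ∀ s ∈ S, ∀ t ∈ S, r s t → f t ≤ f s) :
    ∃ q : EastonFn, dom q ⊆ (low i)ᶜ ∧ ∀ s ∈ S, q ≤ f s := by
  classical
  have hcmp : ∀ s ∈ S, ∀ t ∈ S, f t ≤ f s ∨ f s ≤ f t := by
    intro s hs t ht
    rcases trichotomous_of r s t with h | h | h
    · exact Or.inl (hdec s hs t ht h)
    · subst h
      exact Or.inl le_rfl
    · exact Or.inr (hdec t ht s hs h)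
  let g : ∀ x : Coord, Option ((kap x.1).out) := fun x =>
    if h : ∃ s ∈ S, (f s).f x ≠ none then (f (Classical.choose h)).f x else none
  have hg : ∀ s ∈ S, ∀ x v, (f s).f x = some v → g x = some v := by
    intro s hs x v hv
    have h : ∃ s ∈ S, (f s).f x ≠ none := ⟨s, hs, by simp [hv]⟩
    have h1 : g x = (f (Classical.choose h)).f x := dif_pos h
    rw [h1]
    obtain ⟨h2, h3⟩ := Classical.choose_spec h
    obtain ⟨v', hv'⟩ := Option.ne_none_iff_exists'.1 h3
    rcases hcmp _ h2 s hs with h4 | h4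
    · have h5 := h4 x v' hv'
      rw [hv] at h5
      rw [hv', h5]
    · exact h4 x v hv
  have hg' : ∀ x, g x ≠ none → ∃ s ∈ S, x ∈ dom (f s) := by
    intro x hx
    by_cases h : ∃ s ∈ S, (f s).f x ≠ none
    · exact h
    · exact absurd (dif_neg h) hx
  have hsmall : Small.{0} T := by
    rw [Cardinal.small_iff_lift_mk_lt_univ]
    refine lt_of_le_of_lt (Cardinal.lift_le.2 hT) ?_
    rw [Cardinal.lift_id'.{1, 1}]
    exact Cardinal.lift_lt_univ _
  refine ⟨⟨g, ?_, fun j => ?_⟩, fun x hx => ?_, fun s hs x v hv => hg s hs x v hv⟩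
  · have h1 : ∀ t, ∃ j, ∀ x ∈ dom (f t), x.1 < j := fun t => (f t).supp.1
    choose j hj using h1
    refine ⟨(⨆ n, j n) + 1, fun x hx => ?_⟩
    obtain ⟨s, _, hs⟩ := hg' x hx
    refine (hj s x hs).trans_le ((le_ciSup (bddAbove_of_small (s := Set.range j)) s).trans ?_)
    exact (Order.lt_add_one_iff.2 le_rfl).le
  · by_cases hij : i < j
    · have h1 : {x : Coord | x ∈ {x | g x ≠ none} ∧ x.1 ≤ j} ⊆
          ⋃ s : S, {x : Coord | x ∈ dom (f s.1) ∧ x.1 ≤ j} := by
        rintro x ⟨hx, hxj⟩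
        obtain ⟨s, hs, hs'⟩ := hg' x hx
        exact Set.mem_iUnion.2 ⟨⟨s, hs⟩, hs', hxj⟩
      refine (mk_le_mk_of_subset h1).trans_lt ?_
      rw [card_iUnion_lt_iff_forall_of_isRegular (kap_regular j).lift]
      · exact fun s => (f s.1).supp.2 j
      · refine (mk_set_le S).trans_lt (hT.trans_lt ?_)
        rw [Cardinal.lift_lt]
        exact (jump hij).trans (Order.lt_succ _)
    · have h1 : {x : Coord | x ∈ {x | g x ≠ none} ∧ x.1 ≤ j} = ∅ := by
        ext x
        simp only [Set.mem_empty_iff_false, iff_false]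
        rintro ⟨hx, hxj⟩
        obtain ⟨s, hs, hs'⟩ := hg' x hx
        exact hdom s hs hs' (hxj.trans (not_lt.1 hij))
      rw [h1, mk_eq_zero]
      have h2 := Cardinal.lift_lt.{0, 1}.2 (kap_regular j).pos
      simpa using h2
  · obtain ⟨s, hs, hs'⟩ := hg' x hx
    exact hdom s hs hs'

end Pool.Agent.Y589.Boards
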