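import Pool.Agent.Y589.Cond

/-!
# The strategy of ONE given by the generic filter
-/

namespace Pool.Agent.Y589.Boards

open Set Pool.Agent.Helper669.Forcing Pool.Agent.H995R3.Boards Pool.Agent.Helper669.Forcing2

universe u v w t k

/-- Coordinates `ι ξ m α` of the generic function which code elements of `L`. -/
structure Frame {D : Type u} (M : D → Type v) (𝒮 : Set (Set D)) (Θ : Type t) [LinearOrder Θ]
    (K : Type k) (L : Type w) where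
  good : Good 𝒮
  /-- the coordinates -/
  ι : Θ → ℕ → K → D
  inj : ∀ ξ m α ξ' m' α', ι ξ m α = ι ξ' m' α' → ξ = ξ' ∧ m = m' ∧ α = α'
  /-- the symbols coded by the values of the generic function -/
  dec : ∀ ξ m α, M (ι ξ m α) → L
  surj : ∀ ξ m α, Function.Surjective (dec ξ m α)
  fresh : ∀ s ∈ 𝒮, ∃ α, ∀ ξ m, ι ξ m α ∉ s

variable {D : Type u} {M : D → Type v} {𝒮 : Set (Set D)} {Θ : Type t} [LinearOrder Θ]
  {K : Type k} {L : Type w}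

namespace Frame

/-- the coordinates below `ζ` -/
def A (Fr : Frame M 𝒮 Θ K L) (ζ : Θ) : Set D := {x | ∀ ξ m α, Fr.ι ξ m α = x → ξ < ζ}

variable (Fr : Frame M 𝒮 Θ K L)

theorem A_mono {ζ ζ' : Θ} (h : ζ ≤ ζ') : Fr.A ζ ⊆ Fr.A ζ' :=
  fun _ hx ξ m α he => (hx ξ m α he).trans_le h

theorem mem_A {ζ ξ : Θ} {m : ℕ} {α : K} : Fr.ι ξ m α ∈ Fr.A ζ ↔ ξ < ζ := by
  constructor
  · intro h
    exact h ξ m α rfl
  · intro h ξ' m' α' he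
    rw [(Fr.inj _ _ _ _ _ _ he).1]
    exact h

/-- finitely many moves as one function -/
def unc {P : Type*} {n : ℕ} (f : Fin n → K → L → Set P) : Fin n × K → L → Set P :=
  fun a => f a.1 a.2

theorem isFun_unc {P : Type*} [Preorder P] {n : ℕ} {f : Fin n → K → L → Set P} {p : P} :
    p ∈ IsFun (unc f) ↔ ∀ i, p ∈ IsFun (f i) := by
  simp only [isFun_iff]
  constructor
  · intro h i x
    exact h (i, x)
  · intro h a
    exact h a.1 a.2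

theorem same_unc {P : Type*} [Preorder P] {n : ℕ} {f g : Fin n → K → L → Set P} {p : P} :
    p ∈ Same (unc f) (unc g) ↔ ∀ i, p ∈ Same (f i) (g i) := by
  simp only [same_iff]
  constructor
  · intro h i x
    exact h (i, x)
  · intro h a
    exact h a.1 a.2

/-- `ζ` is the least level, from `ζ₀` on, supporting the moves `f` -/
def Lev (ζ₀ : Θ) {n : ℕ} (f : Fin n → K → L → Set (Cond M 𝒮)) (ζ : Θ) : Set (Cond M 𝒮) :=
  {r | ζ₀ ≤ ζ ∧ r ∈ Supp (Fr.A ζ) (unc f) ∧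
    ∀ ζ', ζ₀ ≤ ζ' → ζ' < ζ → r ∈ fnot (Supp (Fr.A ζ') (unc f))}

theorem down_Lev (ζ₀ : Θ) {n : ℕ} (f : Fin n → K → L → Set (Cond M 𝒮)) (ζ : Θ) :
    Down (Fr.Lev ζ₀ f ζ) :=
  fun _ hp _ hq => ⟨hp.1, down_Supp _ _ hp.2.1 _ hq,
    fun ζ' h1 h2 => down_fnot _ _ (hp.2.2 ζ' h1 h2) _ hq⟩

theorem Lev_unique {ζ₀ : Θ} {n : ℕ} {f : Fin n → K → L → Set (Cond M 𝒮)} {ζ ζ' : Θ}
    {r : Cond M 𝒮} (h : r ∈ Fr.Lev ζ₀ f ζ) (h' : r ∈ Fr.Lev ζ₀ f ζ') : ζ = ζ' := by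
  rcases lt_trichotomy ζ ζ' with hlt | heq | hlt
  · exact absurd h.2.1 (h'.2.2 ζ h.1 hlt r le_rfl)
  · exact heq
  · exact absurd h'.2.1 (h.2.2 ζ' h'.1 hlt r le_rfl)

theorem Lev_congr {ζ₀ : Θ} {n : ℕ} {f g : Fin n → K → L → Set (Cond M 𝒮)} {ζ : Θ}
    {r : Cond M 𝒮} (hf : ∀ i, r ∈ IsFun (f i)) (hg : ∀ i, r ∈ IsFun (g i))
    (hfg : ∀ i, r ∈ Same (f i) (g i)) (h : r ∈ Fr.Lev ζ₀ f ζ) : r ∈ Fr.Lev ζ₀ g ζ := by
  refine ⟨h.1, supp_congr (isFun_unc.2 hg) (same_unc.2 hfg) h.2.1, fun ζ' h1 h2 s hs hs' => ?_⟩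
  refine h.2.2 ζ' h1 h2 s hs ?_
  refine supp_congr (isFun_unc.2 fun i => down_IsFun _ _ (hf i) _ hs) (same_unc.2 fun i => ?_) hs'
  rw [same_iff]
  intro x q hq a b ha hb
  exact (same_iff.1 (hfg i) x q (hq.trans hs) b a hb ha).symm

/-- The moves of ONE: the values of the generic function at the level of the previous moves of
TWO. -/
def one (ζ₀ : Θ) (n : ℕ) (f : Fin n → K → L → Set (Cond M 𝒮)) (α : K) (l : L) :
    Set (Cond M 𝒮) :=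
  {r | ∃ ζ, r ∈ Fr.Lev ζ₀ f ζ ∧ ∃ v, r.f (Fr.ι ζ n α) = some v ∧ Fr.dec ζ n α v = l}

theorem down_one (ζ₀ : Θ) (n : ℕ) (f : Fin n → K → L → Set (Cond M 𝒮)) (α : K) (l : L) :
    Down (Fr.one ζ₀ n f α l) := by
  rintro p ⟨ζ, h1, v, h2, h3⟩ q hq
  exact ⟨ζ, Fr.down_Lev _ _ _ _ h1 _ hq, v, hq _ _ h2, h3⟩

/-- names for the moves made so far have supports -/
def HasLev (Fr : Frame M 𝒮 Θ K L) (ζ₀ : Θ) : Prop :=
  ∀ n (f : Fin n → K → L → Set (Cond M 𝒮)) (p : Cond M 𝒮), (∀ i, p ∈ IsFun (f i)) →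
    ∃ q ≤ p, ∃ ζ, q ∈ Fr.Lev ζ₀ f ζ

theorem hasLev [WellFoundedLT Θ] {ζ₀ : Θ}
    (h : ∀ n (f : Fin n × K → L → Set (Cond M 𝒮)) (p : Cond M 𝒮), p ∈ IsFun f →
      ∃ q ≤ p, ∃ ζ ≥ ζ₀, q ∈ Supp (Fr.A ζ) f) : Fr.HasLev ζ₀ := by
  intro n f p hf
  obtain ⟨q, hq, ζ₁, hζ₁, h1⟩ := h n (unc f) p (isFun_unc.2 hf)
  let T : Set Θ := {ζ | ζ₀ ≤ ζ ∧ ∃ r ≤ q, r ∈ Supp (Fr.A ζ) (unc f)}
  have hT : T.Nonempty := ⟨ζ₁, hζ₁, q, le_rfl, h1⟩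
  obtain ⟨hζ, r, hr, h2⟩ := WellFounded.min_mem wellFounded_lt T hT
  refine ⟨r, hr.trans hq, WellFounded.min wellFounded_lt T hT, hζ, h2, fun ζ' h3 h4 s hs hs' => ?_⟩
  exact WellFounded.not_lt_min wellFounded_lt T (x := ζ') ⟨h3, s, hs.trans hr, hs'⟩ h4

theorem one_isStrategy [hL : Nonempty L] {ζ₀ : Θ} (h : Fr.HasLev ζ₀) (p : Cond M 𝒮) :
    p ∈ IsStrategy (Fr.one ζ₀) := by
  intro n f
  refine ⟨mem_fimp.2 fun q _ hf => ⟨q, le_rfl, ?_⟩, fun g => mem_fimp.2 fun q _ hfg =>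
    ⟨q, le_rfl, ?_⟩⟩
  · rw [isFun_iff]
    intro α
    refine ⟨fun r hr => ?_, fun r hr l l' h1 h2 => ?_⟩
    · obtain ⟨s, hs, ζ, h1⟩ := h n f r fun i => down_IsFun _ _ (hf i) _ hr
      rcases hv : s.f (Fr.ι ζ n α) with _ | v
      · obtain ⟨l⟩ := hL
        obtain ⟨v₀, _⟩ := Fr.surj ζ n α l
        refine ⟨upd Fr.good s _ v₀, (upd_le Fr.good v₀ hv).trans hs, Fr.dec ζ n α v₀,
          meets_of_mem ⟨ζ, Fr.down_Lev _ _ _ _ h1 _ (upd_le Fr.good v₀ hv), v₀,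
            upd_self _ _ _ _, rfl⟩⟩
      · exact ⟨s, hs, Fr.dec ζ n α v, meets_of_mem ⟨ζ, h1, v, hv, rfl⟩⟩
    · obtain ⟨s, hs, ζ, h3, v, h4, rfl⟩ := exists_of_meets (Fr.down_one _ _ _ _ _) h1
      obtain ⟨s', hs', ζ', h3', v', h4', rfl⟩ :=
        exists_of_meets (Fr.down_one _ _ _ _ _) (down_meets _ _ h2 _ hs)
      have h5 := Fr.Lev_unique (Fr.down_Lev _ _ _ _ h3 _ hs') h3'
      subst h5
      have h6 := hs' _ _ h4
      rw [h6] at h4'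
      rw [Option.some.inj h4']
  · rw [same_iff]
    intro α r hr l l' h1 h2
    obtain ⟨s, hs, ζ, h3, v, h4, rfl⟩ := exists_of_meets (Fr.down_one _ _ _ _ _) h1
    obtain ⟨s', hs', ζ', h3', v', h4', rfl⟩ :=
      exists_of_meets (Fr.down_one _ _ _ _ _) (down_meets _ _ h2 _ hs)
    have hle := hs'.trans (hs.trans hr)
    have h5 := Fr.Lev_unique (Fr.Lev_congr (fun i => down_IsFun _ _ (hfg.1 i) _ hle)
      (fun i => down_IsFun _ _ (hfg.2.1 i) _ hle) (fun i => down_Same _ _ _ (hfg.2.2 i) _ hle)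
      (Fr.down_Lev _ _ _ _ h3 _ hs')) h3'
    subst h5
    have h6 := hs' _ _ h4
    rw [h6] at h4'
    rw [Option.some.inj h4']

end Frame

end Pool.Agent.Y589.Boards
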