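import Pool.Agent.Y589.Clos

/-!
# Deciding names from a closed part of the forcing
-/

namespace Pool.Agent.Y589.Boards

open Set Cardinal Pool.Agent.Helper669.Forcing Pool.Agent.H995R3.Boards
  Pool.Agent.Helper669.Forcing2

universe u v w t k

/-- Dense open sets indexed by a well-ordered set have a common member if decreasing sequences
indexed by this set have lower bounds. -/
theorem distrib {P : Type*} [Preorder P] {T : Type*} (r : T → T → Prop) [IsWellOrder T r]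
    (E : T → Set P) (hE : ∀ t, Down (E t)) (hd : ∀ t p, ∃ q ≤ p, q ∈ E t)
    (hcl : ∀ (S : Set T) (f : T → P) (p : P), (∀ s ∈ S, f s ≤ p) →
      (∀ s ∈ S, ∀ t ∈ S, r s t → f t ≤ f s) → ∃ q ≤ p, ∀ s ∈ S, q ≤ f s) (p : P) :
    ∃ q ≤ p, ∀ t, q ∈ E t := by
  classical
  choose ext hext1 hext2 using hd
  let LB : ∀ t, (∀ s, r s t → P) → P := fun t rec =>
    if h : ∃ q ≤ p, ∀ s (hs : r s t), q ≤ rec s hs then Classical.choose h else p
  have hwf : WellFounded r := IsWellFounded.wf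
  let v : T → P := hwf.fix fun t rec => ext t (LB t rec)
  have hv : ∀ t, v t = ext t (LB t fun s _ => v s) := fun t => hwf.fix_eq _ t
  have key : ∀ t, v t ≤ p ∧ ∀ s, r s t → v t ≤ v s := by
    intro t
    induction t using hwf.induction with
    | _ t ih =>
      have h1 : ∃ q ≤ p, ∀ s (_ : r s t), q ≤ v s := by
        obtain ⟨q, hq, hq'⟩ := hcl {s | r s t} v p (fun s hs => (ih s hs).1)
          fun s hs s' hs' hss => (ih s' hs').2 s hss
        exact ⟨q, hq, hq'⟩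
      have h2 : LB t (fun s _ => v s) = Classical.choose h1 := dif_pos h1
      obtain ⟨h3, h4⟩ := Classical.choose_spec h1
      rw [← h2] at h3 h4
      rw [hv]
      exact ⟨(hext1 _ _).trans h3, fun s hs => (hext1 _ _).trans (h4 s hs)⟩
  obtain ⟨q, hq, hq'⟩ := hcl Set.univ v p (fun s _ => (key s).1) fun s _ t _ hst => (key t).2 s hst
  refine ⟨q, hq, fun t => hE t _ ?_ q (hq' t (Set.mem_univ t))⟩
  rw [hv]
  exact hext2 _ _

variable {D : Type u} {M : D → Type v} {𝒮 : Set (Set D)}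

theorem dom_sub {r : Cond M 𝒮} {A : Set D} (h : dom r ⊆ A) {z : D} {v : M z}
    (hv : r.f z = some v) : z ∈ A := h (mem_dom hv)

/-- The part of a condition outside `B` can be extended so that all values of `x` are decided
within `B`. -/
theorem exists_high (h : Good 𝒮) (B : Set D) {X : Type*} {Y : Type*}
    (x : X → Y → Set (Cond M 𝒮)) (p : Cond M 𝒮) (hp : p ∈ IsFun x)
    (hcl : ∀ (S : Set ({u : Cond M 𝒮 // dom u ⊆ B} × X))
      (f : {u : Cond M 𝒮 // dom u ⊆ B} × X → Cond M 𝒮), (∀ s ∈ S, dom (f s) ⊆ Bᶜ) →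
      (∀ s ∈ S, ∀ t ∈ S, WellOrderingRel s t → f t ≤ f s) →
      ∃ q : Cond M 𝒮, dom q ⊆ Bᶜ ∧ ∀ s ∈ S, q ≤ f s) :
    ∃ q ≤ p, (∀ z ∈ B, q.f z = p.f z) ∧ ∀ u : Cond M 𝒮, dom u ⊆ B →
      (∀ z ∈ B, ∀ v, q.f z = some v → u.f z = some v) →
      ∀ a, ∃ w ≤ u, dom w ⊆ B ∧ ∃ b, mix h B w q ∈ meets (x a b) := by
  classical
  let P' := {v : Cond M 𝒮 // dom v ⊆ Bᶜ ∧ v ≤ res h Bᶜ p}
  let T := {u : Cond M 𝒮 // dom u ⊆ B} × X
  let E : T → Set P' := fun t => {v | (∀ z ∈ B, ∀ w, p.f z = some w → t.1.1.f z = some w) →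
    ∃ w ≤ t.1.1, dom w ⊆ B ∧ ∃ b, mix h B w v.1 ∈ meets (x t.2 b)}
  have hE : ∀ t, Down (E t) := by
    rintro t v hv v' hv' ht
    obtain ⟨w, hw, hwB, b, hb⟩ := hv ht
    refine ⟨w, hw, hwB, b, down_meets _ _ hb _ ?_⟩
    refine mix_le _ (fun z hz k hk => ?_) fun z hz k hk => ?_
    · rwa [mix_mem _ hz] at hk
    · rw [mix_not _ hz] at hk
      exact hv' z k hk
  have hd : ∀ t (v : P'), ∃ v' ≤ v, v' ∈ E t := by
    rintro ⟨⟨u, hu⟩, a⟩ v
    by_cases ht : ∀ z ∈ B, ∀ w, p.f z = some w → u.f z = some w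
    · have hc : mix h B u v.1 ≤ p := by
        refine mix_le _ (fun z hz k hk => ht z hz k hk) fun z hz k hk => v.2.2 z k ?_
        rw [res_mem _ hz]
        exact hk
      obtain ⟨s, hs, b, hb⟩ := (isFun_iff.1 hp a).1 _ hc
      have h1 : res h Bᶜ s ≤ v.1 := by
        intro z k hk
        have hz : z ∈ Bᶜ := dom_sub v.2.1 hk
        rw [res_mem _ hz]
        apply hs
        rw [mix_not _ hz]
        exact hk
      refine ⟨⟨res h Bᶜ s, dom_res h, h1.trans v.2.2⟩, h1, fun _ => ⟨res h B s, ?_, dom_res h,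
        b, down_meets _ _ hb _ ?_⟩⟩
      · intro z k hk
        have hz : z ∈ B := dom_sub hu hk
        rw [res_mem _ hz]
        apply hs
        rw [mix_mem _ hz]
        exact hk
      · refine mix_le _ (fun z hz k hk => ?_) fun z hz k hk => ?_
        · rw [res_mem _ hz]
          exact hk
        · rw [res_mem _ hz]
          exact hk
    · exact ⟨v, le_rfl, fun h' => absurd h' ht⟩
  have hcl' : ∀ (S : Set T) (f : T → P') (v : P'), (∀ s ∈ S, f s ≤ v) →
      (∀ s ∈ S, ∀ t ∈ S, WellOrderingRel s t → f t ≤ f s) → ∃ q ≤ v, ∀ s ∈ S, q ≤ f s := by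
    intro S f v hv hf
    rcases S.eq_empty_or_nonempty with rfl | ⟨s₀, hs₀⟩
    · exact ⟨v, le_rfl, fun s hs => absurd hs (Set.notMem_empty s)⟩
    · obtain ⟨q, hq1, hq2⟩ := hcl S (fun s => (f s).1) (fun s _ => (f s).2.1) hf
      exact ⟨⟨q, hq1, (hq2 s₀ hs₀).trans (f s₀).2.2⟩, (hq2 s₀ hs₀).trans (hv s₀ hs₀), hq2⟩
  obtain ⟨v, _, hv⟩ := distrib WellOrderingRel E hE hd hcl' ⟨res h Bᶜ p, dom_res h, le_rfl⟩
  refine ⟨mix h B p v.1, mix_le _ (fun z _ k hk => hk) fun z hz k hk => v.2.2 z k ?_,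
    fun z hz => mix_mem _ hz, fun u hu hpu a => ?_⟩
  · rw [res_mem _ hz]
    exact hk
  · obtain ⟨w, hw, hwB, b, hb⟩ := hv (⟨u, hu⟩, a) fun z hz k hk => hpu z hz k (by
      rw [mix_mem _ hz]
      exact hk)
    refine ⟨w, hw, hwB, b, down_meets _ _ hb _ ?_⟩
    refine mix_le _ (fun z hz k hk => ?_) fun z hz k hk => ?_
    · rwa [mix_mem _ hz] at hk
    · rw [mix_not _ hz] at hk ⊢
      exact hk

end Pool.Agent.Y589.Boards
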