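import Pool.Agent.Y589.Frame

/-!
# A strategy of TWO against a play beating the generic strategy of ONE
-/

namespace Pool.Agent.Y589.Boards

open Set Pool.Agent.Helper669.Forcing Pool.Agent.H995R3.Boards Pool.Agent.Helper669.Forcing2

universe u v w t k

variable {D : Type u} {M : D → Type v} {𝒮 : Set (Set D)} {Θ : Type t} [LinearOrder Θ]
  {K : Type k} {L : Type w}

/-- A condition `q₀` deciding the levels `ζ n` of the moves `y 0, y 1, …` of TWO, and a board `α`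
about which `q₀` says nothing. -/
structure Run (Fr : Frame M 𝒮 Θ K L) where
  q₀ : Cond M 𝒮
  ζ₀ : Θ
  ζ : ℕ → Θ
  le : ∀ n, ζ₀ ≤ ζ n
  mono : Monotone ζ
  y : ℕ → K → L → Set (Cond M 𝒮)
  fy : ∀ n, q₀ ∈ IsFun (y n)
  lev : ∀ n, q₀ ∈ Fr.Lev ζ₀ (fun i : Fin n => y i) (ζ n)
  α : K
  fresh : ∀ ξ m, q₀.f (Fr.ι ξ m α) = none

namespace Run

variable {Fr : Frame M 𝒮 Θ K L} (R : Run Fr)

/-- the coordinate of the move number `m` of ONE on the board `α` -/
def x (m : ℕ) : D := Fr.ι (R.ζ m) m R.α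

/-- a value coding `l` -/
noncomputable def pick (m : ℕ) (l : L) : M (R.x m) :=
  Function.surjInv (Fr.surj (R.ζ m) m R.α) l

theorem dec_pick (m : ℕ) (l : L) : Fr.dec (R.ζ m) m R.α (R.pick m l) = l :=
  Function.surjInv_eq _ l

/-- `c` with the move `l` of ONE added -/
noncomputable def hat (c : Cond M 𝒮) (m : ℕ) (l : L) : Cond M 𝒮 :=
  upd Fr.good c (R.x m) (R.pick m l)

/-- the extensions of `hat c m l` below the level `ζ (m + 1)` which decide the move `y m α` -/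
def E (c : Cond M 𝒮) (m : ℕ) (l : L) : Set (Cond M 𝒮) :=
  {c' | c' ≤ R.hat c m l ∧ (∀ z ∉ Fr.A (R.ζ (m + 1)), c'.f z = (R.hat c m l).f z) ∧
    ∃ b, c' ∈ meets (R.y m R.α b)}

/-- `r` extends `c` on the coordinates below `ζ₀` -/
def Low (r c : Cond M 𝒮) : Prop := ∀ z ∈ Fr.A R.ζ₀, ∀ v, c.f z = some v → r.f z = some v

theorem Low.mono {r c r' : Cond M 𝒮} (h : R.Low r c) (hr : r' ≤ r) : R.Low r' c :=
  fun z hz v hv => hr z v (h z hz v hv)

/-- `r` forces that `c'` is the first member of `E c m l` with lower part in the generic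
filter -/
def Sel (c : Cond M 𝒮) (m : ℕ) (l : L) (c' : Cond M 𝒮) : Set (Cond M 𝒮) :=
  {r | c' ∈ R.E c m l ∧ R.Low r c' ∧ ∀ c'' ∈ R.E c m l, WellOrderingRel c'' c' →
    ∀ r' ≤ r, ¬ R.Low r' c''}

theorem down_Sel (c : Cond M 𝒮) (m : ℕ) (l : L) (c' : Cond M 𝒮) : Down (R.Sel c m l c') :=
  fun _ hp _ hq => ⟨hp.1, hp.2.1.mono R hq, fun c'' h1 h2 r' hr' =>
    hp.2.2 c'' h1 h2 r' (hr'.trans hq)⟩

theorem Sel_unique {c : Cond M 𝒮} {m : ℕ} {l : L} {c' c'' r : Cond M 𝒮}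
    (h : r ∈ R.Sel c m l c') (h' : r ∈ R.Sel c m l c'') : c' = c'' := by
  rcases trichotomous_of WellOrderingRel c' c'' with hlt | heq | hlt
  · exact absurd h.2.1 (h'.2.2 c' h.1 hlt r le_rfl)
  · exact heq
  · exact absurd h'.2.1 (h.2.2 c'' h'.1 hlt r le_rfl)

/-- `c` extends `q₀` and says nothing about the moves of ONE from number `m` on -/
def Inv (m : ℕ) (c : Cond M 𝒮) : Prop := c ≤ R.q₀ ∧ ∀ j ≥ m, c.f (R.x j) = none

theorem inv_zero : R.Inv 0 R.q₀ := ⟨le_rfl, fun _ _ => R.fresh _ _⟩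

theorem x_ne {j m : ℕ} (h : j ≠ m) : R.x j ≠ R.x m := fun he => h (Fr.inj _ _ _ _ _ _ he).2.1

theorem x_not_mem {j m : ℕ} (h : m ≤ j) : R.x j ∉ Fr.A (R.ζ m) := by
  intro hx
  exact absurd ((Fr.mem_A).1 hx) (not_lt.2 (R.mono h))

theorem x_not_mem_low (j : ℕ) : R.x j ∉ Fr.A R.ζ₀ := by
  intro hx
  exact absurd ((Fr.mem_A).1 hx) (not_lt.2 (R.le j))

theorem hat_le {m : ℕ} {c : Cond M 𝒮} (h : R.Inv m c) (l : L) : R.hat c m l ≤ c :=
  upd_le _ _ (h.2 m le_rfl)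

theorem inv_succ {m : ℕ} {c c' : Cond M 𝒮} {l : L} (h : R.Inv m c) (h' : c' ∈ R.E c m l) :
    R.Inv (m + 1) c' := by
  refine ⟨h'.1.trans ((R.hat_le h l).trans h.1), fun j hj => ?_⟩
  rw [h'.2.1 _ (R.x_not_mem hj)]
  unfold hat
  rw [upd_of_ne _ _ _ (R.x_ne (by omega))]
  exact h.2 j (by omega)

theorem exists_sel {m : ℕ} {c r : Cond M 𝒮} (h : R.Inv m c) (hr : R.Low r c) (l : L) :
    ∃ r' ≤ r, ∃ c', r' ∈ R.Sel c m l c' := by
  classical
  have hA : Fr.A R.ζ₀ ⊆ Fr.A (R.ζ (m + 1)) := Fr.A_mono (R.le _)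
  set rh := mix Fr.good (Fr.A R.ζ₀) r (R.hat c m l) with hrh
  have h1 : rh ≤ R.hat c m l := by
    refine mix_le _ (fun z hz v hv => hr z hz v ?_) fun z _ v hv => hv
    have hne : z ≠ R.x m := fun he => R.x_not_mem_low m (he ▸ hz)
    unfold hat at hv
    rwa [upd_of_ne _ _ _ hne] at hv
  have h2 := (R.lev (m + 1)).2.1 rh (h1.trans ((R.hat_le h l).trans h.1)) (Fin.last m, R.α)
  obtain ⟨c', hc1, hc2, b, hb⟩ := h2
  have hE : c' ∈ R.E c m l := by
    refine ⟨hc1.trans h1, fun z hz => ?_, b, hb⟩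
    rw [hc2 z hz, hrh, mix_not _ fun h => hz (hA h)]
  have h3 : mix Fr.good (Fr.A R.ζ₀) c' r ≤ r := by
    refine mix_le _ (fun z hz v hv => hc1 z v ?_) fun z _ v hv => hv
    rw [hrh, mix_mem _ hz]
    exact hv
  have h4 : R.Low (mix Fr.good (Fr.A R.ζ₀) c' r) c' := by
    intro z hz v hv
    rw [mix_mem _ hz]
    exact hv
  let T : Set (Cond M 𝒮) := {c' | c' ∈ R.E c m l ∧ ∃ r' ≤ r, R.Low r' c'}
  have hT : T.Nonempty := ⟨c', hE, _, h3, h4⟩
  have hwf : WellFounded (WellOrderingRel (α := Cond M 𝒮)) := IsWellFounded.wf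
  obtain ⟨h5, r', h6, h7⟩ := WellFounded.min_mem hwf T hT
  refine ⟨r', h6, WellFounded.min hwf T hT, h5, h7, fun c'' h8 h9 r'' h10 h11 => ?_⟩
  exact WellFounded.not_lt_min hwf T (x := c'') ⟨h8, r'', h10.trans h6, h11⟩ h9

/-- `c` is the condition chosen after `m` moves `l 0, …, l (m - 1)` of ONE -/
def C (l : ℕ → L) : ℕ → Cond M 𝒮 → Set (Cond M 𝒮)
  | 0, c => {_r | c = R.q₀}
  | m + 1, c' => {r | ∃ c, r ∈ C l m c ∧ r ∈ R.Sel c m (l m) c'}

theorem down_C (l : ℕ → L) (m : ℕ) : ∀ c, Down (R.C l m c) := by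
  induction m with
  | zero => intro c p hp q hq; exact hp
  | succ m ih =>
    rintro c' p ⟨c, h1, h2⟩ q hq
    exact ⟨c, ih c p h1 q hq, R.down_Sel _ _ _ _ p h2 q hq⟩

theorem C_unique (l : ℕ → L) (m : ℕ) : ∀ {c c' r : Cond M 𝒮}, r ∈ R.C l m c → r ∈ R.C l m c' →
    c = c' := by
  induction m with
  | zero => intro c c' r h h'; exact Eq.trans h (Eq.symm h')
  | succ m ih =>
    rintro c c' r ⟨d, h1, h2⟩ ⟨d', h1', h2'⟩
    obtain rfl := ih h1 h1'
    exact R.Sel_unique h2 h2'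

theorem C_congr {l l' : ℕ → L} (m : ℕ) : ∀ {c r : Cond M 𝒮}, (∀ i < m, l i = l' i) →
    r ∈ R.C l m c → r ∈ R.C l' m c := by
  induction m with
  | zero => intro c r _ h; exact h
  | succ m ih =>
    rintro c r hl ⟨d, h1, h2⟩
    refine ⟨d, ih (fun i hi => hl i (by omega)) h1, ?_⟩
    rw [← hl m (by omega)]
    exact h2

theorem C_inv (l : ℕ → L) (m : ℕ) : ∀ {c r : Cond M 𝒮}, r ≤ R.q₀ → r ∈ R.C l m c →
    R.Inv m c ∧ R.Low r c := by
  induction m with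
  | zero =>
    intro c r hr h
    have h' : c = R.q₀ := h
    subst h'
    exact ⟨R.inv_zero, fun z _ v hv => hr z v hv⟩
  | succ m ih =>
    rintro c r hr ⟨d, h1, h2⟩
    exact ⟨R.inv_succ (ih hr h1).1 h2.1, h2.2.1⟩

theorem exists_C (l : ℕ → L) (m : ℕ) : ∀ r ≤ R.q₀, ∃ r' ≤ r, ∃ c, r' ∈ R.C l m c := by
  induction m with
  | zero => intro r _; exact ⟨r, le_rfl, R.q₀, rfl⟩
  | succ m ih =>
    intro r hr
    obtain ⟨r', hr', c, hc⟩ := ih r hr
    obtain ⟨h1, h2⟩ := R.C_inv l m (hr'.trans hr) hc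
    obtain ⟨r'', hr'', c', hc'⟩ := R.exists_sel h1 h2 (l m)
    exact ⟨r'', hr''.trans hr', c', c, R.down_C _ _ _ _ hc _ hr'', hc'⟩

variable [hL : Nonempty L]

/-- The strategy of TWO: on every board, TWO plays as in the named play on the board `α`, as
decided by the conditions chosen according to the moves of ONE on this board. -/
noncomputable def two : (n : ℕ) → (Fin n → K → L → Set (Cond M 𝒮)) → K → L → Set (Cond M 𝒮)
  | 0, _, _, b => {_r | b = Classical.arbitrary L}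
  | m + 1, x, β, b => {r | ∃ l : ℕ → L, (∀ i : Fin (m + 1), r ∈ meets (x i β (l i))) ∧
      ∃ c, r ∈ R.C l (m + 1) c ∧ c ∈ meets (R.y m R.α b)}

theorem down_two (n : ℕ) (x : Fin n → K → L → Set (Cond M 𝒮)) (β : K) (b : L) :
    Down (R.two n x β b) := by
  cases n with
  | zero => intro p hp q _; exact hp
  | succ m =>
    rintro p ⟨l, h1, c, h2, h3⟩ q hq
    exact ⟨l, fun i => down_meets _ _ (h1 i) _ hq, c, R.down_C _ _ _ _ h2 _ hq, h3⟩

/-- finitely many values can be decided -/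
theorem decide_fin {P : Type*} [Preorder P] {n : ℕ} {x : Fin n → K → L → Set P} {p : P}
    (hx : ∀ i, p ∈ IsFun (x i)) (β : K) : ∃ r ≤ p, ∃ l : ℕ → L, ∀ i : Fin n,
      r ∈ meets (x i β (l i)) := by
  classical
  have key : ∀ m ≤ n, ∃ r ≤ p, ∃ l : ℕ → L, ∀ i : Fin n, (i : ℕ) < m →
      r ∈ meets (x i β (l i)) := by
    intro m
    induction m with
    | zero => intro _; exact ⟨p, le_rfl, fun _ => Classical.arbitrary L, fun i hi => by omega⟩
    | succ m ih =>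
      intro hm
      obtain ⟨r, hr, l, hl⟩ := ih (by omega)
      obtain ⟨s, hs, b, hb⟩ := ((isFun_iff.1 (hx ⟨m, by omega⟩)) β).1 r hr
      refine ⟨s, hs.trans hr, fun i => if i = m then b else l i, fun i hi => ?_⟩
      by_cases him : (i : ℕ) = m
      · have h1 : i = ⟨m, by omega⟩ := Fin.ext him
        rw [h1]
        simpa using hb
      · have h1 : (fun i => if i = m then b else l i) (i : ℕ) = l i := if_neg him
        rw [h1]
        exact down_meets _ _ (hl i (by omega)) s hs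
  obtain ⟨r, hr, l, hl⟩ := key n le_rfl
  exact ⟨r, hr, l, fun i => hl i i.2⟩

omit hL in
theorem fy_unique {c : Cond M 𝒮} (hc : c ≤ R.q₀) {m : ℕ} {b b' : L}
    (h : c ∈ meets (R.y m R.α b)) (h' : c ∈ meets (R.y m R.α b')) : b = b' :=
  (isFun_iff.1 (R.fy m) R.α).2 c hc b b' h h'

theorem two_isFun {n : ℕ} {x : Fin n → K → L → Set (Cond M 𝒮)} {p : Cond M 𝒮} (hp : p ≤ R.q₀)
    (hx : ∀ i, p ∈ IsFun (x i)) : p ∈ IsFun (R.two n x) := by
  rw [isFun_iff]
  intro β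
  cases n with
  | zero =>
    refine ⟨fun q _ => ⟨q, le_rfl, _, meets_of_mem rfl⟩, fun q _ b b' h h' => ?_⟩
    obtain ⟨_, _, h1⟩ := exists_of_meets (R.down_two _ _ _ _) h
    obtain ⟨_, _, h2⟩ := exists_of_meets (R.down_two _ _ _ _) h'
    exact Eq.trans h1 (Eq.symm h2)
  | succ m =>
    refine ⟨fun q hq => ?_, fun q hq b b' h h' => ?_⟩
    · obtain ⟨r, hr, l, hl⟩ := decide_fin (fun i => down_IsFun _ _ (hx i) _ hq) β
      obtain ⟨r', hr', c, hc⟩ := R.exists_C l (m + 1) r (hr.trans (hq.trans hp))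
      have hc' := hc
      obtain ⟨d, _, ⟨_, _, b, hb⟩, _⟩ := hc'
      exact ⟨r', hr'.trans hr, b, meets_of_mem ⟨l, fun i => down_meets _ _ (hl i) _ hr', c, hc,
        hb⟩⟩
    · obtain ⟨r, hr, l, h1, c, h2, h3⟩ := exists_of_meets (R.down_two _ _ _ _) h
      obtain ⟨r', hr', l', h1', c', h2', h3'⟩ :=
        exists_of_meets (R.down_two _ _ _ _) (down_meets _ _ h' _ hr)
      have hle := hr'.trans (hr.trans hq)
      have hll : ∀ i < m + 1, l i = l' i := fun i hi =>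
        (isFun_iff.1 (hx ⟨i, hi⟩) β).2 r' hle _ _ (down_meets _ _ (h1 ⟨i, hi⟩) _ hr')
          (h1' ⟨i, hi⟩)
      have h4 := R.C_unique l' (m + 1) (R.C_congr _ hll (R.down_C _ _ _ _ h2 _ hr')) h2'
      subst h4
      exact R.fy_unique (R.C_inv _ _ (hle.trans hp) h2').1.1 h3 h3'

theorem two_isStrategy : R.q₀ ∈ IsStrategy R.two := by
  intro n f
  refine ⟨mem_fimp.2 fun q hq hf => ⟨q, le_rfl, R.two_isFun hq hf⟩, fun g => mem_fimp.2
    fun q hq hfg => ⟨q, le_rfl, ?_⟩⟩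
  rw [same_iff]
  intro β r hr b b' h h'
  cases n with
  | zero =>
    obtain ⟨_, _, h1⟩ := exists_of_meets (R.down_two _ _ _ _) h
    obtain ⟨_, _, h2⟩ := exists_of_meets (R.down_two _ _ _ _) h'
    exact Eq.trans h1 (Eq.symm h2)
  | succ m =>
    obtain ⟨s, hs, l, h1, c, h2, h3⟩ := exists_of_meets (R.down_two _ _ _ _) h
    obtain ⟨s', hs', l', h1', c', h2', h3'⟩ :=
      exists_of_meets (R.down_two _ _ _ _) (down_meets _ _ h' _ hs)
    have hle := hs'.trans (hs.trans hr)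
    have hll : ∀ i < m + 1, l i = l' i := fun i hi =>
      same_iff.1 (hfg.2.2 ⟨i, hi⟩) β s' hle _ _ (down_meets _ _ (h1 ⟨i, hi⟩) _ hs') (h1' ⟨i, hi⟩)
    have h4 := R.C_unique l' (m + 1) (R.C_congr _ hll (R.down_C _ _ _ _ h2 _ hs')) h2'
    subst h4
    exact R.fy_unique (R.C_inv _ _ (hle.trans hq) h2').1.1 h3 h3'

end Run

end Pool.Agent.Y589.Boards
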